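import Pool.Agent.H641R2.GD.Defs

/-!
# Global domination of path factors: basic facts
-/

namespace Pool.Agent.H641R2.GlobDom

theorem gdn_le_iff {n M : ℕ} {Fs : List (List ℕ)} :
    globalDominationNumber n Fs ≤ M ↔ ∃ D : Finset ℕ, D ⊆ Finset.range n ∧ D.card ≤ M ∧
      ∀ l ∈ Fs, Dominates n (pathGraph l) D := by
  constructor
  · intro h
    have hne : {c | ∃ D : Finset ℕ, D ⊆ Finset.range n ∧ D.card = c ∧
        ∀ l ∈ Fs, Dominates n (pathGraph l) D}.Nonempty :=
      ⟨_, Finset.range n, subset_rfl, rfl, fun _ _ v hv hv' =>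
        absurd (Finset.mem_range.2 hv) hv'⟩
    obtain ⟨D, h1, h2, h3⟩ := Nat.sInf_mem hne
    refine ⟨D, h1, ?_, h3⟩
    rw [h2]
    exact h
  · rintro ⟨D, h1, h2, h3⟩
    exact le_trans (Nat.sInf_le (show D.card ∈ {c | ∃ D : Finset ℕ, D ⊆ Finset.range n ∧
      D.card = c ∧ ∀ l ∈ Fs, Dominates n (pathGraph l) D} from ⟨D, h1, rfl, h3⟩)) h2

/-! ### Consecutive entries -/

theorem split_unique {y : ℕ} : ∀ {s s' t t' : List ℕ}, y ∉ s → y ∉ s' →
    s ++ y :: t = s' ++ y :: t' → s = s' ∧ t = t'
  | [], [], t, t', _, _, h => by simpa using h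
  | [], b :: s', t, t', _, h2, h => by
    simp only [List.nil_append, List.cons_append, List.cons.injEq] at h
    exact absurd (by simp [h.1]) h2
  | a :: s, [], t, t', h1, _, h => by
    simp only [List.nil_append, List.cons_append, List.cons.injEq] at h
    exact absurd (by simp [h.1]) h1
  | a :: s, b :: s', t, t', h1, h2, h => by
    simp only [List.cons_append, List.cons.injEq] at h
    have := split_unique (fun hy => h1 (List.mem_cons_of_mem _ hy))
      (fun hy => h2 (List.mem_cons_of_mem _ hy)) h.2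
    exact ⟨by rw [h.1, this.1], this.2⟩

theorem infix_eq_right {l : List ℕ} (hl : l.Nodup) {x y z u : ℕ} (h : [x, y, z] <:+: l)
    (hu : [y, u] <:+: l) : u = z := by
  obtain ⟨s, t, rfl⟩ := h
  obtain ⟨s', t', h'⟩ := hu
  have e : s' ++ [y, u] ++ t' = s' ++ y :: (u :: t') := by simp
  have e2 : s ++ [x, y, z] ++ t = (s ++ [x]) ++ y :: (z :: t) := by simp
  rw [e, e2] at h'
  have hl' := hl
  rw [e2] at hl'
  have hnd : (s' ++ y :: (u :: t')).Nodup := by rw [h']; exact hl'
  have hy1 : y ∉ s' := by
    intro hy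
    rw [List.nodup_append] at hnd
    exact hnd.2.2 y hy y (by simp) rfl
  have hy2 : y ∉ s ++ [x] := by
    intro hy
    rw [List.nodup_append] at hl'
    exact hl'.2.2 y hy y (by simp) rfl
  have := (split_unique hy1 hy2 h').2
  simp only [List.cons.injEq] at this
  exact this.1

theorem infix_eq_left {l : List ℕ} (hl : l.Nodup) {x y z u : ℕ} (h : [x, y, z] <:+: l)
    (hu : [u, y] <:+: l) : u = x := by
  have h1 : [z, y, x] <:+: l.reverse := by
    have := List.reverse_infix.2 h
    simpa using this
  have h2 : [y, u] <:+: l.reverse := by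
    have := List.reverse_infix.2 hu
    simpa using this
  exact infix_eq_right (List.nodup_reverse.2 hl) h1 h2

theorem hit_of_infix {n : ℕ} {l : List ℕ} (hl : l.Perm (List.range n)) {D : Finset ℕ}
    (hD : Dominates n (pathGraph l) D) {x y z : ℕ} (h : [x, y, z] <:+: l) :
    x ∈ D ∨ y ∈ D ∨ z ∈ D := by
  have hnd : l.Nodup := hl.nodup_iff.2 List.nodup_range
  have hy : y ∈ l := h.subset (by simp)
  by_cases hyD : y ∈ D
  · exact Or.inr (Or.inl hyD)
  obtain ⟨u, hu, -, hadj⟩ := hD y (by simpa using hl.mem_iff.1 hy) hyD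
  rcases hadj with hadj | hadj
  · right; right
    rw [← infix_eq_right hnd h hadj]
    exact hu
  · left
    rw [← infix_eq_left hnd h hadj]
    exact hu

theorem hit_of_prefix {n : ℕ} {l : List ℕ} (hl : l.Perm (List.range n)) {D : Finset ℕ}
    (hD : Dominates n (pathGraph l) D) {x y : ℕ} (h : [x, y] <+: l) :
    x ∈ D ∨ y ∈ D := by
  have hnd : l.Nodup := hl.nodup_iff.2 List.nodup_range
  have hx : x ∈ l := h.subset (by simp)
  by_cases hxD : x ∈ D
  · exact Or.inl hxD
  obtain ⟨u, hu, hne, hadj⟩ := hD x (by simpa using hl.mem_iff.1 hx) hxD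
  right
  obtain ⟨t, rfl⟩ := h
  have hnx : x ∉ y :: t := by
    have := hnd
    simp only [List.cons_append, List.nil_append, List.nodup_cons] at this
    exact this.1
  rcases hadj with ⟨s', t', h'⟩ | ⟨s', t', h'⟩
  · have e : s' ++ x :: (u :: t') = [] ++ x :: (y :: t) := by simpa using h'
    have hs' : s' = [] := by
      cases s' with
      | nil => rfl
      | cons a s' =>
        simp only [List.cons_append, List.nil_append, List.cons.injEq] at e
        exact absurd (by rw [← e.2]; simp) hnx
    subst hs'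
    simp only [List.nil_append, List.cons.injEq] at e
    rw [← e.2.1]
    exact hu
  · exfalso
    have e : s' ++ [u] ++ x :: t' = [] ++ x :: (y :: t) := by simpa using h'
    cases s' with
    | nil =>
      simp only [List.nil_append, List.cons_append, List.cons.injEq] at e
      exact hne e.1.symm
    | cons a s' =>
      simp only [List.cons_append, List.nil_append, List.cons.injEq] at e
      exact hnx (by rw [← e.2]; simp)

/-! ### Scanning -/

/-- Scanning a list: `c` counts the entries outside `D` seen since the last entry in `D`. -/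
def Run (D : Finset ℕ) : ℕ → List ℕ → ℕ → Prop
  | c, [], c' => c = c'
  | c, v :: l, c' => if v ∈ D then Run D 0 l c' else c ≤ 1 ∧ Run D (c + 1) l c'

theorem Run.append {D : Finset ℕ} : ∀ {l l' : List ℕ} {c c' c'' : ℕ}, Run D c l c' →
    Run D c' l' c'' → Run D c (l ++ l') c''
  | [], l', c, c', c'', h, h' => by
    simp only [Run] at h
    subst h
    simpa using h'
  | v :: l, l', c, c', c'', h, h' => by
    simp only [Run, List.cons_append] at h ⊢
    split_ifs at h ⊢ with hv
    · exact Run.append h h'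
    · exact ⟨h.1, Run.append h.2 h'⟩

theorem run_flatMap {D : Finset ℕ} {α : Type} {f : α → List ℕ} {K : ℕ} : ∀ (l : List α),
    (∀ a ∈ l, ∀ c ≤ K, ∃ c' ≤ K, Run D c (f a) c') → ∀ c ≤ K, ∃ c' ≤ K, Run D c (l.flatMap f) c'
  | [], _, c, hc => ⟨c, hc, by simp [Run]⟩
  | a :: l, h, c, hc => by
    obtain ⟨c1, hc1, h1⟩ := h a (by simp) c hc
    obtain ⟨c2, hc2, h2⟩ := run_flatMap l (fun a ha => h a (List.mem_cons_of_mem _ ha)) c1 hc1
    exact ⟨c2, hc2, by rw [List.flatMap_cons]; exact h1.append h2⟩

theorem dom_of_run_aux {D : Finset ℕ} {c' : ℕ} (hc' : c' ≤ 1) : ∀ (l pre : List ℕ) (c : ℕ),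
    (c = 0 → ∃ p ∈ D, ∃ s, pre = s ++ [p]) → Run D c l c' → ∀ v ∈ l, v ∉ D →
      ∃ u ∈ D, [v, u] <:+: pre ++ l ∨ [u, v] <:+: pre ++ l
  | [], pre, c, _, _, v, hv, _ => by simp at hv
  | a :: l, pre, c, hc, hrun, v, hv, hvD => by
    simp only [Run] at hrun
    split_ifs at hrun with ha
    · have hva : v ≠ a := fun e => hvD (e ▸ ha)
      have hvl : v ∈ l := by simpa [hva] using hv
      have := dom_of_run_aux hc' l (pre ++ [a]) 0 (fun _ => ⟨a, ha, pre, rfl⟩) hrun v hvl hvD
      simpa using this
    · by_cases hva : v = a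
      · subst hva
        by_cases h0 : c = 0
        · obtain ⟨p, hp, s, rfl⟩ := hc h0
          exact ⟨p, hp, Or.inr ⟨s, l, by simp⟩⟩
        · have hc1 : c = 1 := by omega
          subst hc1
          cases l with
          | nil =>
            have := hrun.2
            simp only [Run] at this
            omega
          | cons b l =>
            have h2 := hrun.2
            simp only [Run] at h2
            split_ifs at h2 with hb
            · exact ⟨b, hb, Or.inl ⟨pre, l, by simp⟩⟩
            · omega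
      · have hvl : v ∈ l := by simpa [hva] using hv
        have := dom_of_run_aux hc' l (pre ++ [a]) (c + 1) (by omega) hrun.2 v hvl hvD
        simpa using this

theorem dominates_of_run {n : ℕ} {l : List ℕ} (hl : l.Perm (List.range n)) {D : Finset ℕ}
    (h : ∃ c' ≤ 1, Run D 1 l c') : Dominates n (pathGraph l) D := by
  obtain ⟨c', hc', h⟩ := h
  intro v hv hvD
  have hvl : v ∈ l := hl.mem_iff.2 (by simpa using hv)
  obtain ⟨u, hu, hadj⟩ := dom_of_run_aux hc' l [] 1 (by simp) h v hvl hvD
  refine ⟨u, hu, fun e => hvD (e ▸ hu), ?_⟩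
  simpa using hadj

/-! ### Lists covering a range -/

theorem perm_range_of {n : ℕ} {l : List ℕ} (hlen : l.length = n) (hmem : ∀ v < n, v ∈ l) :
    l.Perm (List.range n) := by
  have h1 : (List.range n).Subperm l :=
    List.nodup_range.subperm (fun v hv => hmem v (by simpa using hv))
  exact (h1.perm_of_length_le (by simp [hlen])).symm

theorem infix_flatMap {α β : Type} {f : α → List β} {l : List α} {a : α} (h : a ∈ l) :
    f a <:+: l.flatMap f := by
  obtain ⟨s, t, rfl⟩ := List.append_of_mem h
  exact ⟨s.flatMap f, t.flatMap f, by simp⟩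

theorem infix_flatMap_range {β : Type} {f : ℕ → List β} {P q : ℕ} (h : q + 1 < P) :
    f q ++ f (q + 1) <:+: (List.range P).flatMap f := by
  obtain ⟨r, rfl⟩ : ∃ r, P = q + 2 + r := ⟨P - (q + 2), by omega⟩
  refine ⟨(List.range q).flatMap f, ((List.range r).map (q + 2 + ·)).flatMap f, ?_⟩
  rw [List.range_add (n := q + 2), List.flatMap_append]
  simp [List.range_succ, List.flatMap_append]

end Pool.Agent.H641R2.GlobDom
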