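import Pool.Agent.H641R2.GD.Basic

/-!
# Global domination of path factors: the construction

Vertices are numbered `21 q + r`, where `r < 21` is the role:
`0 x0, 1 h0, 2 w0, 3 x1, 4 h1, 5 w1, 6 Y0, 7 G0, 8 Z0, 9 A0, 10 B0, 11 Y1, 12 G1, 13 Z1, 14 A1,
15 B1, 16 y, 17 g, 18 z, 19 a, 20 b`.
-/

namespace Pool.Agent.H641R2.GlobDom

/-- The vertex with index `q` and role `r`. -/
def vx (q r : ℕ) : ℕ := 21 * q + r

theorem vx_div {q r : ℕ} (h : r < 21) : vx q r / 21 = q := by unfold vx; omega

theorem vx_mod {q r : ℕ} (h : r < 21) : vx q r % 21 = r := by unfold vx; omega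

theorem vx_inj {q r q' r' : ℕ} (h : r < 21) (h' : r' < 21) (e : vx q r = vx q' r') :
    q = q' ∧ r = r' := by unfold vx at e; omega

/-- Cyclic successor inside a block of length `O`. -/
def nx (O q : ℕ) : ℕ := q / O * O + (q % O + 1) % O

/-- The formula-dependent part of a cell of the first path. -/
def mid (m n : ℕ) (var : ℕ → ℕ) (sgn : ℕ → Bool) (q : ℕ) : List ℕ :=
  if q / (3 * m) < n then
    vx q 5 :: ((if var (q % (3 * m)) = q / (3 * m) then
      (if sgn (q % (3 * m)) = true then
        [vx q 20, vx (nx (3 * m) q) 19, vx (n * (3 * m) + q % (3 * m)) 20]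
      else [vx (n * (3 * m) + q % (3 * m)) 20, vx q 20, vx (nx (3 * m) q) 19])
      else [vx q 20, vx (nx (3 * m) q) 19]) ++ [vx q 2, vx q 4])
  else (if q % (3 * m) % 3 = 0 then [vx q 19, vx (q + 1) 19, vx (q + 2) 19] else []) ++
    [vx q 4, vx q 2, vx q 5]

/-- A cell of the first path. -/
def cell1 (m n : ℕ) (var : ℕ → ℕ) (sgn : ℕ → Bool) (q : ℕ) : List ℕ :=
  vx q 3 :: vx q 1 :: (mid m n var sgn q ++ [vx q 9, vx q 15, vx q 6, vx q 7, vx q 8, vx q 0,
    vx q 14, vx q 10, vx q 11, vx q 12, vx q 13, vx q 16, vx q 17, vx q 18])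

/-- The number of cells. -/
def PP (m n : ℕ) : ℕ := 3 * m * (n + 1)

/-- The first path. -/
def F1 (m n : ℕ) (var : ℕ → ℕ) (sgn : ℕ → Bool) : List ℕ :=
  (List.range (PP m n)).flatMap (cell1 m n var sgn)

/-- A cell of the first part of the second path. -/
def cellC (q : ℕ) : List ℕ := [vx q 0, vx q 1, vx q 2, vx q 3, vx q 4, vx q 5]

/-- A cell of the second part of the second path. -/
def cell2 (q : ℕ) : List ℕ := [vx q 6, vx q 9, vx q 10, vx q 8, vx q 12, vx q 16, vx q 19, vx q 20,
  vx q 18, vx q 7, vx q 11, vx q 14, vx q 15, vx q 13, vx q 17]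

/-- The second path. -/
def F2 (m n : ℕ) : List ℕ :=
  (List.range (PP m n)).flatMap cellC ++ (List.range (PP m n)).flatMap cell2

/-- The hubs. -/
def hub (i : ℕ) : ℕ := vx (i / 7) ([1, 4, 7, 9, 12, 14, 17].getD (i % 7) 0)

/-- The first class of other vertices. -/
def uu (i : ℕ) : ℕ := vx (i / 7) ([2, 5, 19, 20, 0, 3, 16].getD (i % 7) 0)

/-- The second class of other vertices. -/
def ww (i : ℕ) : ℕ := vx (i / 7) ([6, 8, 10, 11, 13, 15, 18].getD (i % 7) 0)

/-- A cell of the additional path number `t`. -/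
def cellT (N t i : ℕ) : List ℕ := [ww ((i + 60 * t) % N), hub i, uu ((i + 30 * t) % N)]

/-- The additional path number `t`, for `t ≥ 1`. -/
def FT (m n t : ℕ) : List ℕ :=
  (List.range (7 * PP m n)).flatMap (cellT (7 * PP m n) t)

/-! ### They are Hamiltonian paths -/

theorem sum_range_eq (f : ℕ → ℕ) (n : ℕ) :
    ((List.range n).map f).sum = ∑ i ∈ Finset.range n, f i := by
  induction n with
  | zero => simp
  | succ n ih => simp [List.range_succ, Finset.sum_range_succ, ih]

theorem sum_range_mul (f : ℕ → ℕ) (O : ℕ) (n : ℕ) :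
    ∑ q ∈ Finset.range (O * n), f q =
      ∑ v ∈ Finset.range n, ∑ o ∈ Finset.range O, f (v * O + o) := by
  induction n with
  | zero => simp
  | succ n ih =>
    rw [Nat.mul_succ, Finset.sum_range_add, ih, Finset.sum_range_succ, Nat.mul_comm O n]

theorem blk_div {O v o : ℕ} (h : o < O) : (v * O + o) / O = v := by
  rw [Nat.mul_comm, Nat.mul_add_div (by omega), Nat.div_eq_of_lt h, Nat.add_zero]

theorem blk_mod {O v o : ℕ} (h : o < O) : (v * O + o) % O = o := by
  rw [Nat.mul_comm, Nat.mul_add_mod, Nat.mod_eq_of_lt h]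

theorem nx_blk {O v o : ℕ} (h : o < O) : nx O (v * O + o) = v * O + (o + 1) % O := by
  rw [nx, blk_div h, blk_mod h]

theorem blk_lt {O v o n : ℕ} (h : o < O) (hv : v < n + 1) : v * O + o < O * (n + 1) := by
  have : (v + 1) * O ≤ O * (n + 1) := by rw [Nat.mul_comm O]; exact Nat.mul_le_mul_right _ hv
  have e : (v + 1) * O = v * O + O := by ring
  omega

theorem blk_cases {O n q : ℕ} (hq : q < O * (n + 1)) : ∃ v o, v < n + 1 ∧ o < O ∧ q = v * O + o := by
  have hO : 0 < O := by
    rcases Nat.eq_zero_or_pos O with h | h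
    · subst h; simp at hq
    · exact h
  exact ⟨q / O, q % O, (Nat.div_lt_iff_lt_mul hO).2 (by rwa [Nat.mul_comm] at hq),
    Nat.mod_lt _ hO, by rw [Nat.mul_comm, Nat.div_add_mod]⟩

theorem length_mid (m n : ℕ) (var : ℕ → ℕ) (sgn : ℕ → Bool) {v o : ℕ} (h : o < 3 * m) :
    (mid m n var sgn (v * (3 * m) + o)).length = if v < n then 5 + (if var o = v then 1 else 0)
      else 3 + (if o % 3 = 0 then 3 else 0) := by
  unfold mid
  rw [blk_div h, blk_mod h]
  split_ifs <;> simp

theorem sum_mod3 (m : ℕ) : ∑ o ∈ Finset.range (3 * m), (if o % 3 = 0 then 3 else 0) = 3 * m := by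
  induction m with
  | zero => simp
  | succ m ih =>
    rw [Nat.mul_succ, Finset.sum_range_succ, Finset.sum_range_succ, Finset.sum_range_succ, ih]
    have e1 : 3 * m % 3 = 0 := by omega
    have e2 : (3 * m + 1) % 3 = 1 := by omega
    have e3 : (3 * m + 2) % 3 = 2 := by omega
    simp [e1, e2, e3]

theorem length_F1 (m n : ℕ) (var : ℕ → ℕ) (sgn : ℕ → Bool) (hvar : ∀ o < 3 * m, var o < n) :
    (F1 m n var sgn).length = 21 * PP m n := by
  unfold F1
  rw [List.length_flatMap, sum_range_eq, PP, sum_range_mul, Finset.sum_range_succ]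
  have h1 : ∀ v o, o < 3 * m → (cell1 m n var sgn (v * (3 * m) + o)).length =
      16 + (if v < n then 5 + (if var o = v then 1 else 0)
      else 3 + (if o % 3 = 0 then 3 else 0)) := by
    intro v o ho
    unfold cell1
    simp only [List.length_cons, List.length_append, List.length_nil, length_mid m n var sgn ho]
    omega
  have h2 : ∑ o ∈ Finset.range (3 * m), (cell1 m n var sgn (n * (3 * m) + o)).length =
      19 * (3 * m) + 3 * m := by
    rw [Finset.sum_congr rfl (fun o ho => h1 n o (Finset.mem_range.1 ho))]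
    simp only [lt_irrefl, if_false]
    rw [Finset.sum_add_distrib, Finset.sum_add_distrib, sum_mod3]
    simp
    ring
  have h3 : ∑ v ∈ Finset.range n, ∑ o ∈ Finset.range (3 * m),
      (cell1 m n var sgn (v * (3 * m) + o)).length = n * (21 * (3 * m)) + 3 * m := by
    have : ∀ v ∈ Finset.range n, ∑ o ∈ Finset.range (3 * m),
        (cell1 m n var sgn (v * (3 * m) + o)).length = 21 * (3 * m) +
          ∑ o ∈ Finset.range (3 * m), (if var o = v then 1 else 0) := by
      intro v hv
      rw [Finset.sum_congr rfl (fun o ho => h1 v o (Finset.mem_range.1 ho))]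
      simp only [Finset.mem_range.1 hv, if_true]
      rw [Finset.sum_add_distrib, Finset.sum_add_distrib]
      simp
      ring
    rw [Finset.sum_congr rfl this, Finset.sum_add_distrib, Finset.sum_comm]
    have h4 : ∑ y ∈ Finset.range (3 * m), ∑ x ∈ Finset.range n, (if var y = x then 1 else 0) =
        ∑ y ∈ Finset.range (3 * m), 1 := by
      refine Finset.sum_congr rfl fun y hy => ?_
      rw [Finset.sum_ite_eq, if_pos (Finset.mem_range.2 (hvar y (Finset.mem_range.1 hy)))]
    rw [h4]
    simp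
  rw [h2, h3]
  ring

theorem mem_F1 {m n : ℕ} {var : ℕ → ℕ} {sgn : ℕ → Bool} {q v : ℕ} (hq : q < PP m n)
    (h : v ∈ cell1 m n var sgn q) : v ∈ F1 m n var sgn := by
  unfold F1
  rw [List.mem_flatMap]
  exact ⟨q, List.mem_range.2 hq, h⟩

theorem mem_cell1_of_mid {m n : ℕ} {var : ℕ → ℕ} {sgn : ℕ → Bool} {q v : ℕ}
    (h : v ∈ mid m n var sgn q) : v ∈ cell1 m n var sgn q := by
  unfold cell1
  simp [h]

theorem vx_cases {P v : ℕ} (hv : v < 21 * P) : ∃ q r, q < P ∧ r < 21 ∧ v = vx q r :=
  ⟨v / 21, v % 21, by omega, by omega, by unfold vx; omega⟩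

theorem F1_perm {m n : ℕ} {var : ℕ → ℕ} {sgn : ℕ → Bool} (hvar : ∀ o < 3 * m, var o < n) :
    (F1 m n var sgn).Perm (List.range (21 * PP m n)) := by
  refine perm_range_of (length_F1 m n var sgn hvar) ?_
  intro v hv
  obtain ⟨q, r, hq, hr, rfl⟩ := vx_cases hv
  by_cases h19 : r = 19
  · subst h19
    obtain ⟨v, o, hv1, ho, rfl⟩ := blk_cases hq
    by_cases hvn : v < n
    · -- the predecessor in the chain
      have ho' : (o + 3 * m - 1) % (3 * m) < 3 * m := Nat.mod_lt _ (by omega)
      refine mem_F1 (q := v * (3 * m) + (o + 3 * m - 1) % (3 * m)) (blk_lt ho' hv1)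
        (mem_cell1_of_mid ?_)
      have e : ((o + 3 * m - 1) % (3 * m) + 1) % (3 * m) = o := by
        rcases Nat.eq_zero_or_pos o with h0 | h0
        · subst h0
          rw [Nat.zero_add, Nat.mod_eq_of_lt (by omega : 3 * m - 1 < 3 * m)]
          rw [show 3 * m - 1 + 1 = 3 * m by omega, Nat.mod_self]
        · rw [show o + 3 * m - 1 = (o - 1) + 3 * m by omega, Nat.add_mod_right,
            Nat.mod_eq_of_lt (by omega : o - 1 < 3 * m), show o - 1 + 1 = o by omega,
            Nat.mod_eq_of_lt ho]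
      unfold mid
      rw [blk_div ho', blk_mod ho', if_pos hvn, nx_blk ho', e]
      split_ifs <;> simp
    · have hvn' : v = n := by omega
      subst hvn'
      have ho3 : 3 * (o / 3) < 3 * m := by omega
      refine mem_F1 (q := v * (3 * m) + 3 * (o / 3)) (blk_lt ho3 hv1) (mem_cell1_of_mid ?_)
      unfold mid
      rw [blk_div ho3, blk_mod ho3, if_neg hvn, if_pos (by omega)]
      have : o = 3 * (o / 3) ∨ o = 3 * (o / 3) + 1 ∨ o = 3 * (o / 3) + 2 := by omega
      rcases this with h | h | h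
      · rw [← h]; simp
      · have e : v * (3 * m) + o = v * (3 * m) + 3 * (o / 3) + 1 := by omega
        rw [e]; simp
      · have e : v * (3 * m) + o = v * (3 * m) + 3 * (o / 3) + 2 := by omega
        rw [e]; simp
  by_cases h20 : r = 20
  · subst h20
    obtain ⟨v, o, hv, ho, rfl⟩ := blk_cases hq
    by_cases hvn : v < n
    · refine mem_F1 hq (mem_cell1_of_mid ?_)
      unfold mid
      rw [blk_div ho, blk_mod ho, if_pos hvn]
      split_ifs <;> simp
    · have hvn' : v = n := by omega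
      subst hvn'
      have hvo := hvar o ho
      refine mem_F1 (q := var o * (3 * m) + o) (blk_lt ho (by omega)) (mem_cell1_of_mid ?_)
      unfold mid
      rw [blk_div ho, blk_mod ho, if_pos hvo, if_pos rfl]
      split_ifs <;> simp
  by_cases h2 : r = 2 ∨ r = 4 ∨ r = 5
  · refine mem_F1 hq (mem_cell1_of_mid ?_)
    unfold mid
    rcases h2 with rfl | rfl | rfl <;> split_ifs <;> simp
  · refine mem_F1 hq ?_
    unfold cell1
    have : r = 0 ∨ r = 1 ∨ r = 3 ∨ r = 6 ∨ r = 7 ∨ r = 8 ∨ r = 9 ∨ r = 10 ∨ r = 11 ∨ r = 12 ∨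
        r = 13 ∨ r = 14 ∨ r = 15 ∨ r = 16 ∨ r = 17 ∨ r = 18 := by omega
    rcases this with rfl | rfl | rfl | rfl | rfl | rfl | rfl | rfl | rfl | rfl | rfl | rfl | rfl |
      rfl | rfl | rfl <;> simp

theorem F2_perm (m n : ℕ) : (F2 m n).Perm (List.range (21 * PP m n)) := by
  refine perm_range_of ?_ ?_
  · unfold F2
    rw [List.length_append, List.length_flatMap, List.length_flatMap, sum_range_eq, sum_range_eq]
    simp [cellC, cell2]
    ring
  · intro v hv
    obtain ⟨q, r, hq, hr, rfl⟩ := vx_cases hv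
    unfold F2
    rw [List.mem_append, List.mem_flatMap, List.mem_flatMap]
    by_cases h : r < 6
    · left
      refine ⟨q, List.mem_range.2 hq, ?_⟩
      unfold cellC
      interval_cases r <;> simp
    · right
      refine ⟨q, List.mem_range.2 hq, ?_⟩
      unfold cell2
      interval_cases r <;> simp at h ⊢

theorem role_cases {r : ℕ} (hr : r < 21) :
    (∃ j < 7, [1, 4, 7, 9, 12, 14, 17].getD j 0 = r) ∨
    (∃ j < 7, [2, 5, 19, 20, 0, 3, 16].getD j 0 = r) ∨
    (∃ j < 7, [6, 8, 10, 11, 13, 15, 18].getD j 0 = r) := by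
  interval_cases r <;> decide

theorem shift_mod {N j s : ℕ} (hj : j < N) (hs : s < N) :
    ((j + N - s) % N + s) % N = j ∧ (j + N - s) % N < N := by
  refine ⟨?_, Nat.mod_lt _ (by omega)⟩
  rw [Nat.mod_add_mod, show j + N - s + s = j + N by omega, Nat.add_mod_right,
    Nat.mod_eq_of_lt hj]

theorem FT_perm (m n t : ℕ) (ht : 60 * t < 7 * PP m n) :
    (FT m n t).Perm (List.range (21 * PP m n)) := by
  refine perm_range_of ?_ ?_
  · unfold FT
    rw [List.length_flatMap, sum_range_eq]
    simp [cellT]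
    ring
  · intro v hv
    obtain ⟨q, r, hq, hr, rfl⟩ := vx_cases hv
    unfold FT
    rw [List.mem_flatMap]
    rcases role_cases hr with ⟨j, hj, h⟩ | ⟨j, hj, h⟩ | ⟨j, hj, h⟩
    · refine ⟨7 * q + j, List.mem_range.2 (by omega), ?_⟩
      have e1 : (7 * q + j) / 7 = q := by omega
      have e2 : (7 * q + j) % 7 = j := by omega
      simp [cellT, hub, e1, e2, ← h]
    · obtain ⟨h1, h2⟩ := shift_mod (N := 7 * PP m n) (j := 7 * q + j) (s := 30 * t) (by omega)
        (by omega)
      refine ⟨_, List.mem_range.2 h2, ?_⟩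
      have e1 : (7 * q + j) / 7 = q := by omega
      have e2 : (7 * q + j) % 7 = j := by omega
      simp only [cellT, h1, uu, e1, e2, ← h]
      simp
    · obtain ⟨h1, h2⟩ := shift_mod (N := 7 * PP m n) (j := 7 * q + j) (s := 60 * t) (by omega)
        (by omega)
      refine ⟨_, List.mem_range.2 h2, ?_⟩
      have e1 : (7 * q + j) / 7 = q := by omega
      have e2 : (7 * q + j) % 7 = j := by omega
      simp only [cellT, h1, ww, e1, e2, ← h]
      simp

end Pool.Agent.H641R2.GlobDom
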