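import Mathlib

/-!
# Global domination of path factors: the problem
-/

namespace Pool.Agent.H641R2.GlobDom

/-- The path graph whose vertices, in order along the path, are the entries of the list `l`. -/
def pathGraph (l : List ℕ) : SimpleGraph ℕ where
  Adj u v := u ≠ v ∧ ([u, v] <:+: l ∨ [v, u] <:+: l)
  symm := ⟨fun _ _ h => ⟨h.1.symm, h.2.symm⟩⟩
  loopless := ⟨fun _ h => h.1 rfl⟩

/-- The set `D` dominates the graph `F` on the vertex set `{0, ..., n-1}`: every vertex outside `D`
has a neighbour in `D`. -/
def Dominates (n : ℕ) (F : SimpleGraph ℕ) (D : Finset ℕ) : Prop :=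
  ∀ v < n, v ∉ D → ∃ u ∈ D, F.Adj v u

/-- The global domination number of the spanning paths given by the lists in `Fs` on the vertex set
`{0, ..., n-1}`: the least size of a set of vertices dominating every one of them. -/
noncomputable def globalDominationNumber (n : ℕ) (Fs : List (List ℕ)) : ℕ :=
  sInf {c | ∃ D : Finset ℕ, D ⊆ Finset.range n ∧ D.card = c ∧
    ∀ l ∈ Fs, Dominates n (pathGraph l) D}

/-- The decision problem `GD_k`. An instance `(n, Fs, M)` consists of a number `n ≥ 1` of vertices
(the vertex set is `{0, ..., n-1}`), a list `Fs` of `k` pairwise edge-disjoint Hamiltonian paths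
(each given by listing the vertices in the order of the path), and a number `M`; the question is
whether the global domination number is at most `M`. -/
def GD (k : ℕ) : ℕ × List (List ℕ) × ℕ → Prop := fun x =>
  0 < x.1 ∧ x.2.1.length = k ∧ (∀ l ∈ x.2.1, l.Perm (List.range x.1)) ∧
    x.2.1.Pairwise (fun l l' => Disjoint (pathGraph l).edgeSet (pathGraph l').edgeSet) ∧
    globalDominationNumber x.1 x.2.1 ≤ x.2.2

end Pool.Agent.H641R2.GlobDom
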