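import Pool.Agent.H641R2.GD.Cons

/-!
# Global domination of path factors: the paths are edge-disjoint
-/

namespace Pool.Agent.H641R2.GlobDom

/-- Class of a vertex: `0` hub, `1` first class, `2` second class. -/
def cls (v : ℕ) : ℕ :=
  [1, 0, 1, 1, 0, 1, 2, 0, 2, 0, 2, 2, 0, 2, 0, 2, 1, 0, 2, 1, 1].getD (v % 21) 0

/-- Position inside the role list of the class. -/
def kk (r : ℕ) : ℕ :=
  [4, 0, 0, 5, 1, 1, 0, 2, 1, 3, 2, 3, 4, 4, 5, 5, 6, 6, 6, 2, 3].getD r 0

/-- Position of a vertex inside its class. -/
def posn (v : ℕ) : ℕ := 7 * (v / 21) + kk (v % 21)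

theorem kk_le (r : ℕ) : kk r ≤ 6 := by
  unfold kk
  by_cases h : r < 21
  · interval_cases r <;> decide
  · rw [List.getD_eq_default _ _ (by simpa using h)]
    omega

/-- Same class, or nearby positions (cyclically). -/
def Loc (N u v : ℕ) : Prop :=
  cls u = cls v ∨ ∃ d : ℤ, -20 ≤ d ∧ d ≤ 20 ∧ (N : ℤ) ∣ (posn u : ℤ) - posn v - d

theorem Loc.symm {N u v : ℕ} (h : Loc N u v) : Loc N v u := by
  rcases h with h | ⟨d, h1, h2, h3⟩
  · exact Or.inl h.symm
  · right
    refine ⟨-d, by omega, by omega, ?_⟩
    have : (posn v : ℤ) - posn u - -d = -((posn u : ℤ) - posn v - d) := by ring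
    rw [this]
    exact (dvd_neg).2 h3

theorem loc_near {N q q' r r' : ℕ} (hr : r < 21) (hr' : r' < 21) (h : q ≤ q' + 2)
    (h' : q' ≤ q + 2) : Loc N (vx q r) (vx q' r') := by
  right
  have e1 : posn (vx q r) = 7 * q + kk r := by rw [posn, vx_div hr, vx_mod hr]
  have e2 : posn (vx q' r') = 7 * q' + kk r' := by rw [posn, vx_div hr', vx_mod hr']
  have := kk_le r
  have := kk_le r'
  refine ⟨(posn (vx q r) : ℤ) - posn (vx q' r'), ?_, ?_, ?_⟩
  · rw [e1, e2]; push_cast; omega
  · rw [e1, e2]; push_cast; omega
  · simp

theorem loc_cls {N q q' r r' : ℕ} (hr : r < 21) (hr' : r' < 21)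
    (h : cls r = cls r') : Loc N (vx q r) (vx q' r') := by
  left
  unfold cls at *
  rw [vx_mod hr, vx_mod hr']
  rwa [Nat.mod_eq_of_lt hr, Nat.mod_eq_of_lt hr'] at h

/-- Role pairs of the edges of the first path. -/
def S1 : List (ℕ × ℕ) := [(3, 1), (1, 5), (1, 19), (1, 4), (5, 20), (20, 19), (19, 20), (20, 20),
  (19, 2), (20, 2), (2, 4), (4, 9), (19, 19), (19, 4), (4, 2), (2, 5), (5, 9), (9, 15), (15, 6),
  (6, 7), (7, 8), (8, 0), (0, 14), (14, 10), (10, 11), (11, 12), (12, 13), (13, 16), (16, 17),
  (17, 18), (18, 3)]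

/-- Role pairs of the edges of the second path. -/
def S2 : List (ℕ × ℕ) := [(0, 1), (1, 2), (2, 3), (3, 4), (4, 5), (5, 0), (5, 6), (6, 9), (9, 10),
  (10, 8), (8, 12), (12, 16), (16, 19), (19, 20), (20, 18), (18, 7), (7, 11), (11, 14), (14, 15),
  (15, 13), (13, 17), (17, 6)]

/-- What is known about edges of the first path. -/
def R1 (N u v : ℕ) : Prop := (u % 21, v % 21) ∈ S1 ∧
  ((u % 21 = 19 ∧ v % 21 = 20 ∨ u % 21 = 20 ∧ v % 21 = 19) → u / 21 ≠ v / 21) ∧ Loc N u v

/-- What is known about edges of the second path. -/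
def R2 (N u v : ℕ) : Prop := (u % 21, v % 21) ∈ S2 ∧
  (u % 21 = 19 ∧ v % 21 = 20 → u / 21 = v / 21) ∧ Loc N u v

theorem R1_mk {N q r q' r' : ℕ} (hr : r < 21) (hr' : r' < 21) (hS : (r, r') ∈ S1)
    (h : (r = 19 ∧ r' = 20 ∨ r = 20 ∧ r' = 19) → q ≠ q') (hl : Loc N (vx q r) (vx q' r')) :
    R1 N (vx q r) (vx q' r') := by
  unfold R1
  rw [vx_mod hr, vx_mod hr', vx_div hr, vx_div hr']
  exact ⟨hS, h, hl⟩

theorem R2_mk {N q r q' r' : ℕ} (hr : r < 21) (hr' : r' < 21) (hS : (r, r') ∈ S2)
    (h : r = 19 ∧ r' = 20 → q = q') (hl : Loc N (vx q r) (vx q' r')) :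
    R2 N (vx q r) (vx q' r') := by
  unfold R2
  rw [vx_mod hr, vx_mod hr', vx_div hr, vx_div hr']
  exact ⟨hS, h, hl⟩

theorem R1_same {N q r r' : ℕ} (hr : r < 21) (hr' : r' < 21) (hS : (r, r') ∈ S1)
    (h : ¬ (r = 19 ∧ r' = 20 ∨ r = 20 ∧ r' = 19)) : R1 N (vx q r) (vx q r') :=
  R1_mk hr hr' hS (fun e => absurd e h) (loc_near hr hr' (by omega) (by omega))

theorem R2_same {N q r r' : ℕ} (hr : r < 21) (hr' : r' < 21) (hS : (r, r') ∈ S2) :
    R2 N (vx q r) (vx q r') :=
  R2_mk hr hr' hS (fun _ => rfl) (loc_near hr hr' (by omega) (by omega))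

theorem isChain_flatMap_range {R : ℕ → ℕ → Prop} {f : ℕ → List ℕ} : ∀ (P : ℕ),
    (∀ q < P, (f q).IsChain R) → (∀ q, f q ≠ []) →
    (∀ q, q + 1 < P → ∀ x ∈ (f q).getLast?, ∀ y ∈ (f (q + 1)).head?, R x y) →
    ((List.range P).flatMap f).IsChain R
  | 0, _, _, _ => by simp
  | 1, h, _, _ => by simpa using h 0 (by omega)
  | P + 2, h, hne, hb => by
    rw [List.range_succ, List.flatMap_append, List.isChain_append]
    refine ⟨isChain_flatMap_range (P + 1) (fun q hq => h q (by omega)) hne
      (fun q hq => hb q (by omega)), by simpa using h (P + 1) (by omega), ?_⟩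
    intro x hx y hy
    rw [List.range_succ, List.flatMap_append] at hx
    refine hb P (by omega) x ?_ y (by simpa using hy)
    have hne' : f P ≠ [] := hne P
    simp only [List.flatMap_cons, List.flatMap_nil, List.append_nil] at hx
    rw [List.getLast?_append_of_ne_nil _ hne'] at hx
    exact hx

theorem nx_ne {O q : ℕ} (hO : 2 ≤ O) : nx O q ≠ q := by
  intro h
  have h1 : nx O q % O = q % O := by rw [h]
  have hlt : q % O < O := Nat.mod_lt _ (by omega)
  unfold nx at h1
  rw [Nat.mul_comm, Nat.mul_add_mod, Nat.mod_mod] at h1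
  rcases Nat.lt_or_ge (q % O + 1) O with h2 | h2
  · rw [Nat.mod_eq_of_lt h2] at h1; omega
  · have : q % O + 1 = O := by omega
    rw [this, Nat.mod_self] at h1
    omega

theorem last_cell1 (m n : ℕ) (var : ℕ → ℕ) (sgn : ℕ → Bool) (q : ℕ) :
    (cell1 m n var sgn q).getLast? = some (vx q 18) := by
  unfold cell1
  rw [← List.cons_append, ← List.cons_append, List.getLast?_append_of_ne_nil _ (by simp)]
  simp

theorem chain_tail1 (N q : ℕ) : List.IsChain (R1 N) [vx q 9, vx q 15, vx q 6, vx q 7, vx q 8,
    vx q 0, vx q 14, vx q 10, vx q 11, vx q 12, vx q 13, vx q 16, vx q 17, vx q 18] := by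
  simp only [List.isChain_cons_cons, List.isChain_singleton, and_true]
  refine ⟨?_, ?_, ?_, ?_, ?_, ?_, ?_, ?_, ?_, ?_, ?_, ?_, ?_⟩ <;>
    exact R1_same (by decide) (by decide) (by decide) (by decide)

theorem chain_cell1 {m n N : ℕ} {var : ℕ → ℕ} {sgn : ℕ → Bool} (hvar : ∀ o < 3 * m, var o < n)
    {q : ℕ} (hq : q < PP m n) : (cell1 m n var sgn q).IsChain (R1 N) := by
  have hm : 0 < m := by
    rcases Nat.eq_zero_or_pos m with h | h
    · subst h; simp [PP] at hq
    · exact h
  have ho : q % (3 * m) < 3 * m := Nat.mod_lt _ (by omega)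
  have hne : nx (3 * m) q ≠ q := nx_ne (by omega)
  have hd : q / (3 * m) < n → nx (3 * m) q ≠ n * (3 * m) + q % (3 * m) := by
    intro h e
    have h1 : nx (3 * m) q / (3 * m) = q / (3 * m) := by
      unfold nx
      exact blk_div (Nat.mod_lt _ (by omega))
    rw [e, blk_div ho] at h1
    omega
  unfold cell1
  rw [← List.cons_append, ← List.cons_append, List.isChain_append]
  refine ⟨?_, chain_tail1 N q, ?_⟩
  · unfold mid
    split_ifs with h1 h2 h3 h4
    · simp only [List.cons_append, List.nil_append, List.isChain_cons_cons,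
        List.isChain_singleton, and_true]
      refine ⟨R1_same (by decide) (by decide) (by decide) (by decide),
        R1_same (by decide) (by decide) (by decide) (by decide),
        R1_same (by decide) (by decide) (by decide) (by decide),
        R1_mk (by decide) (by decide) (by decide) (fun _ => hne.symm)
          (loc_cls (by decide) (by decide) (by decide)),
        R1_mk (by decide) (by decide) (by decide) (fun _ => hd h1)
          (loc_cls (by decide) (by decide) (by decide)),
        R1_mk (by decide) (by decide) (by decide) (by intro h; omega)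
          (loc_cls (by decide) (by decide) (by decide)),
        R1_same (by decide) (by decide) (by decide) (by decide)⟩
    · simp only [List.cons_append, List.nil_append, List.isChain_cons_cons,
        List.isChain_singleton, and_true]
      refine ⟨R1_same (by decide) (by decide) (by decide) (by decide),
        R1_same (by decide) (by decide) (by decide) (by decide),
        R1_mk (by decide) (by decide) (by decide) (by intro h; omega)
          (loc_cls (by decide) (by decide) (by decide)),
        R1_mk (by decide) (by decide) (by decide) (by intro h; omega)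
          (loc_cls (by decide) (by decide) (by decide)),
        R1_mk (by decide) (by decide) (by decide) (fun _ => hne.symm)
          (loc_cls (by decide) (by decide) (by decide)),
        R1_mk (by decide) (by decide) (by decide) (by intro h; omega)
          (loc_cls (by decide) (by decide) (by decide)),
        R1_same (by decide) (by decide) (by decide) (by decide)⟩
    · simp only [List.cons_append, List.nil_append, List.isChain_cons_cons,
        List.isChain_singleton, and_true]
      refine ⟨R1_same (by decide) (by decide) (by decide) (by decide),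
        R1_same (by decide) (by decide) (by decide) (by decide),
        R1_same (by decide) (by decide) (by decide) (by decide),
        R1_mk (by decide) (by decide) (by decide) (fun _ => hne.symm)
          (loc_cls (by decide) (by decide) (by decide)),
        R1_mk (by decide) (by decide) (by decide) (by intro h; omega)
          (loc_cls (by decide) (by decide) (by decide)),
        R1_same (by decide) (by decide) (by decide) (by decide)⟩
    · simp only [List.cons_append, List.nil_append, List.isChain_cons_cons,
        List.isChain_singleton, and_true]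
      refine ⟨R1_same (by decide) (by decide) (by decide) (by decide),
        R1_same (by decide) (by decide) (by decide) (by decide),
        R1_mk (by decide) (by decide) (by decide) (by intro h; omega)
          (loc_cls (by decide) (by decide) (by decide)),
        R1_mk (by decide) (by decide) (by decide) (by intro h; omega)
          (loc_cls (by decide) (by decide) (by decide)),
        R1_mk (by decide) (by decide) (by decide) (by intro h; omega)
          (loc_near (by decide) (by decide) (by omega) (by omega)),
        R1_same (by decide) (by decide) (by decide) (by decide),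
        R1_same (by decide) (by decide) (by decide) (by decide)⟩
    · simp only [List.cons_append, List.nil_append, List.isChain_cons_cons,
        List.isChain_singleton, and_true]
      refine ⟨R1_same (by decide) (by decide) (by decide) (by decide),
        R1_same (by decide) (by decide) (by decide) (by decide),
        R1_same (by decide) (by decide) (by decide) (by decide),
        R1_same (by decide) (by decide) (by decide) (by decide)⟩
  · intro x hx y hy
    simp only [List.head?_cons, Option.mem_some_iff] at hy
    subst hy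
    have hx' : x = vx q 4 ∨ x = vx q 5 := by
      unfold mid at hx
      split_ifs at hx <;> simp at hx <;> simp [← hx]
    rcases hx' with rfl | rfl <;>
      exact R1_same (by decide) (by decide) (by decide) (by decide)

theorem chain_F1 {m n N : ℕ} {var : ℕ → ℕ} {sgn : ℕ → Bool} (hvar : ∀ o < 3 * m, var o < n) :
    (F1 m n var sgn).IsChain (R1 N) := by
  unfold F1
  refine isChain_flatMap_range _ (fun q hq => chain_cell1 hvar hq) (fun q => by simp [cell1]) ?_
  intro q _ x hx y hy
  rw [last_cell1] at hx
  simp only [Option.mem_some_iff] at hx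
  simp only [cell1, List.head?_cons, Option.mem_some_iff] at hy
  subst hx hy
  exact R1_mk (by decide) (by decide) (by decide) (by intro h; omega)
    (loc_near (by decide) (by decide) (by omega) (by omega))

theorem chain_F2 (m n : ℕ) : (F2 m n).IsChain (R2 (7 * PP m n)) := by
  unfold F2
  rw [List.isChain_append]
  refine ⟨?_, ?_, ?_⟩
  · refine isChain_flatMap_range _ (fun q _ => ?_) (fun q => by simp [cellC]) ?_
    · simp only [cellC, List.isChain_cons_cons, List.isChain_singleton, and_true]
      refine ⟨?_, ?_, ?_, ?_, ?_⟩ <;> exact R2_same (by decide) (by decide) (by decide)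
    · intro q _ x hx y hy
      simp only [cellC, List.getLast?_cons_cons, List.getLast?_singleton,
        List.head?_cons, Option.mem_some_iff] at hx hy
      subst hx hy
      exact R2_mk (by decide) (by decide) (by decide) (by intro h; omega)
        (loc_near (by decide) (by decide) (by omega) (by omega))
  · refine isChain_flatMap_range _ (fun q _ => ?_) (fun q => by simp [cell2]) ?_
    · simp only [cell2, List.isChain_cons_cons, List.isChain_singleton, and_true]
      refine ⟨?_, ?_, ?_, ?_, ?_, ?_, ?_, ?_, ?_, ?_, ?_, ?_, ?_, ?_⟩ <;>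
        exact R2_same (by decide) (by decide) (by decide)
    · intro q _ x hx y hy
      simp only [cell2, List.getLast?_cons_cons, List.getLast?_singleton,
        List.head?_cons, Option.mem_some_iff] at hx hy
      subst hx hy
      exact R2_mk (by decide) (by decide) (by decide) (by intro h; omega)
        (loc_near (by decide) (by decide) (by omega) (by omega))
  · intro x hx y hy
    rcases Nat.eq_zero_or_pos (PP m n) with h0 | h0
    · rw [h0] at hx; simp at hx
    obtain ⟨P, hP⟩ : ∃ P, PP m n = P + 1 := ⟨PP m n - 1, by omega⟩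
    rw [hP] at hx hy ⊢
    rw [List.range_succ, List.flatMap_append] at hx
    rw [List.range_succ_eq_map, List.flatMap_cons] at hy
    have hne : cellC P ≠ [] := by simp [cellC]
    simp only [List.flatMap_cons, List.flatMap_nil, List.append_nil] at hx
    rw [List.getLast?_append_of_ne_nil _ hne] at hx
    simp only [cellC, cell2, List.getLast?_cons_cons, List.getLast?_singleton, List.cons_append,
        List.head?_cons, Option.mem_some_iff] at hx hy
    subst hx hy
    refine R2_mk (by decide) (by decide) (by decide) (by intro h; omega) ?_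
    right
    refine ⟨-6, by omega, by omega, ?_⟩
    rw [posn, posn, vx_div (by decide), vx_div (by decide), vx_mod (by decide),
      vx_mod (by decide)]
    refine ⟨1, ?_⟩
    have e1 : kk 5 = 1 := rfl
    have e2 : kk 6 = 0 := rfl
    rw [e1, e2]
    push_cast
    ring

/-! ### Edges of the additional paths -/

theorem hub_facts (i : ℕ) : cls (hub i) = 0 ∧ posn (hub i) = i := by
  have h7 : i % 7 < 7 := Nat.mod_lt _ (by decide)
  unfold hub cls posn
  generalize hj : i % 7 = j at *
  have : i = 7 * (i / 7) + j := by omega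
  interval_cases j <;> (simp only [List.getD_cons_zero, List.getD_cons_succ]
                        rw [vx_mod (by decide), vx_div (by decide)]
                        refine ⟨rfl, ?_⟩
                        simp only [kk, List.getD_cons_zero, List.getD_cons_succ]
                        omega)

theorem uu_facts (i : ℕ) : cls (uu i) = 1 ∧ posn (uu i) = i := by
  have h7 : i % 7 < 7 := Nat.mod_lt _ (by decide)
  unfold uu cls posn
  generalize hj : i % 7 = j at *
  have : i = 7 * (i / 7) + j := by omega
  interval_cases j <;> (simp only [List.getD_cons_zero, List.getD_cons_succ]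
                        rw [vx_mod (by decide), vx_div (by decide)]
                        refine ⟨rfl, ?_⟩
                        simp only [kk, List.getD_cons_zero, List.getD_cons_succ]
                        omega)

theorem ww_facts (i : ℕ) : cls (ww i) = 2 ∧ posn (ww i) = i := by
  have h7 : i % 7 < 7 := Nat.mod_lt _ (by decide)
  unfold ww cls posn
  generalize hj : i % 7 = j at *
  have : i = 7 * (i / 7) + j := by omega
  interval_cases j <;> (simp only [List.getD_cons_zero, List.getD_cons_succ]
                        rw [vx_mod (by decide), vx_div (by decide)]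
                        refine ⟨rfl, ?_⟩
                        simp only [kk, List.getD_cons_zero, List.getD_cons_succ]
                        omega)

/-- What is known about edges of the additional path number `t`. -/
def RT (N t u v : ℕ) : Prop :=
  (cls u = 2 ∧ cls v = 0 ∧ (N : ℤ) ∣ (posn u : ℤ) - posn v - 60 * t) ∨
  (cls u = 0 ∧ cls v = 1 ∧ (N : ℤ) ∣ (posn v : ℤ) - posn u - 30 * t) ∨
  (cls u = 1 ∧ cls v = 2 ∧ (N : ℤ) ∣ (posn v : ℤ) - posn u - (30 * t + 1))

theorem dvd_eq {N a b : ℤ} (h : N ∣ a) (e : b = a) : N ∣ b := by rw [e]; exact h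

theorem dvd_mod_sub (N a : ℕ) : (N : ℤ) ∣ ((a % N : ℕ) : ℤ) - a := by
  refine ⟨-((a / N : ℕ) : ℤ), ?_⟩
  have : ((N * (a / N) + a % N : ℕ) : ℤ) = a := by rw [Nat.div_add_mod]
  push_cast at this ⊢
  linarith

theorem chain_FT (m n t : ℕ) : (FT m n t).IsChain (RT (7 * PP m n) t) := by
  unfold FT
  generalize 7 * PP m n = N
  refine isChain_flatMap_range _ (fun i _ => ?_) (fun q => by simp [cellT]) ?_
  · simp only [cellT, List.isChain_cons_cons, List.isChain_singleton, and_true]
    constructor
    · left
      refine ⟨(ww_facts _).1, (hub_facts _).1, ?_⟩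
      rw [(ww_facts _).2, (hub_facts _).2]
      have := dvd_mod_sub N (i + 60 * t)
      push_cast at this ⊢
      convert this using 1
      ring
    · right; left
      refine ⟨(hub_facts _).1, (uu_facts _).1, ?_⟩
      rw [(uu_facts _).2, (hub_facts _).2]
      have := dvd_mod_sub N (i + 30 * t)
      push_cast at this ⊢
      convert this using 1
      ring
  · intro i _ x hx y hy
    simp only [cellT, List.getLast?_cons_cons, List.getLast?_singleton,
        List.head?_cons, Option.mem_some_iff] at hx hy
    subst hx hy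
    right; right
    refine ⟨(uu_facts _).1, (ww_facts _).1, ?_⟩
    rw [(uu_facts _).2, (ww_facts _).2]
    have h1 := dvd_mod_sub N (i + 1 + 60 * t)
    have h2 := dvd_mod_sub N (i + 30 * t)
    have := dvd_sub h1 h2
    push_cast at this ⊢
    exact dvd_eq this (by ring)

/-! ### Disjointness -/

theorem rel_of_chain {R : ℕ → ℕ → Prop} {l : List ℕ} (hl : l.IsChain R) {u v : ℕ}
    (h : [u, v] <:+: l) : R u v := by
  obtain ⟨s, t, rfl⟩ := h
  rw [List.isChain_append, List.isChain_append] at hl
  simpa using hl.1.2.1

theorem adj_of_chain {R : ℕ → ℕ → Prop} {l : List ℕ} (hl : l.IsChain R) {u v : ℕ}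
    (h : (pathGraph l).Adj u v) : R u v ∨ R v u := by
  rcases h.2 with h | h
  · exact Or.inl (rel_of_chain hl h)
  · exact Or.inr (rel_of_chain hl h)

theorem disjoint_of_chains {R R' : ℕ → ℕ → Prop} {l l' : List ℕ} (hl : l.IsChain R)
    (hl' : l'.IsChain R') (h : ∀ u v, R u v → ¬ R' u v ∧ ¬ R' v u) :
    Disjoint (pathGraph l).edgeSet (pathGraph l').edgeSet := by
  rw [Set.disjoint_left]
  intro e he he'
  induction e with
  | _ u v =>
    rw [SimpleGraph.mem_edgeSet] at he he'
    rcases adj_of_chain hl he with h1 | h1 <;> rcases adj_of_chain hl' he' with h2 | h2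
    · exact (h _ _ h1).1 h2
    · exact (h _ _ h1).2 h2
    · exact (h _ _ h1).2 h2
    · exact (h _ _ h1).1 h2

theorem S_disj1 : ∀ p ∈ S1, p ∈ S2 → p = (19, 20) := by decide

theorem S_disj2 : ∀ p ∈ S1, (p.2, p.1) ∈ S2 → p = (20, 19) := by decide

theorem R12 {N u v : ℕ} (h : R1 N u v) : ¬ R2 N u v ∧ ¬ R2 N v u := by
  constructor
  · intro h'
    have := S_disj1 _ h.1 h'.1
    rw [Prod.mk.injEq] at this
    exact h.2.1 (Or.inl this) (h'.2.1 this)
  · intro h'
    have := S_disj2 _ h.1 h'.1
    rw [Prod.mk.injEq] at this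
    exact h.2.1 (Or.inr this) (h'.2.1 ⟨this.2, this.1⟩).symm

theorem not_dvd_small {N : ℕ} {a : ℤ} (h1 : 0 < a) (h2 : a < N) : ¬ (N : ℤ) ∣ a := by
  rintro ⟨c, hc⟩
  have : 0 < c := by
    by_contra h
    push Not at h
    have : (N : ℤ) * c ≤ 0 := by nlinarith
    omega
  nlinarith

theorem not_dvd_small' {N : ℕ} {a : ℤ} (h1 : a < 0) (h2 : -(N : ℤ) < a) : ¬ (N : ℤ) ∣ a := by
  intro h
  exact not_dvd_small (N := N) (a := -a) (by omega) (by omega) ((dvd_neg).2 h)

theorem loc_RT {N t u v : ℕ} (ht : 1 ≤ t) (hN : 60 * t + 60 < N) (h : Loc N u v) :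
    ¬ RT N t u v := by
  rintro (⟨h1, h2, h3⟩ | ⟨h1, h2, h3⟩ | ⟨h1, h2, h3⟩) <;> rcases h with h | ⟨d, hd1, hd2, hd3⟩
  · omega
  · have := dvd_sub hd3 h3
    exact not_dvd_small (N := N) (a := 60 * t - d) (by omega) (by omega)
      (dvd_eq this (by ring))
  · omega
  · have := dvd_add hd3 h3
    exact not_dvd_small' (N := N) (a := -d - 30 * t) (by omega) (by omega)
      (dvd_eq this (by ring))
  · omega
  · have := dvd_add hd3 h3
    exact not_dvd_small' (N := N) (a := -d - (30 * t + 1)) (by omega) (by omega)
      (dvd_eq this (by ring))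

theorem RT_RT {N t s u v : ℕ} (hst : s < t) (hN : 60 * t + 60 < N) (h : RT N t u v) :
    ¬ RT N s u v ∧ ¬ RT N s v u := by
  constructor
  · intro h'
    rcases h with ⟨h1, h2, h3⟩ | ⟨h1, h2, h3⟩ | ⟨h1, h2, h3⟩ <;>
      rcases h' with ⟨h4, h5, h6⟩ | ⟨h4, h5, h6⟩ | ⟨h4, h5, h6⟩ <;> try omega
    · have := dvd_sub h6 h3
      exact not_dvd_small (N := N) (a := 60 * t - 60 * s) (by omega) (by omega)
        (dvd_eq this (by ring))
    · have := dvd_sub h6 h3
      exact not_dvd_small (N := N) (a := 30 * t - 30 * s) (by omega) (by omega)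
        (dvd_eq this (by ring))
    · have := dvd_sub h6 h3
      exact not_dvd_small (N := N) (a := 30 * t - 30 * s) (by omega) (by omega)
        (dvd_eq this (by ring))
  · intro h'
    rcases h with ⟨h1, h2, h3⟩ | ⟨h1, h2, h3⟩ | ⟨h1, h2, h3⟩ <;>
      rcases h' with ⟨h4, h5, h6⟩ | ⟨h4, h5, h6⟩ | ⟨h4, h5, h6⟩ <;> omega

/-- The `k` paths of the construction. -/
def paths (k m n : ℕ) (var : ℕ → ℕ) (sgn : ℕ → Bool) : List (List ℕ) :=
  F1 m n var sgn :: F2 m n :: (List.range (k - 2)).map (fun t => FT m n (t + 1))

theorem paths_disjoint {k m n : ℕ} {var : ℕ → ℕ} {sgn : ℕ → Bool}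
    (hvar : ∀ o < 3 * m, var o < n) (hN : 60 * k + 60 < 7 * PP m n) :
    (paths k m n var sgn).Pairwise
      (fun l l' => Disjoint (pathGraph l).edgeSet (pathGraph l').edgeSet) := by
  unfold paths
  rw [List.pairwise_cons, List.pairwise_cons]
  refine ⟨?_, ?_, ?_⟩
  · intro l hl
    rcases List.mem_cons.1 hl with rfl | hl
    · exact disjoint_of_chains (chain_F1 (N := 7 * PP m n) hvar) (chain_F2 m n)
        (fun u v h => R12 h)
    · rw [List.mem_map] at hl
      obtain ⟨t, ht, rfl⟩ := hl
      rw [List.mem_range] at ht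
      exact disjoint_of_chains (chain_F1 (N := 7 * PP m n) hvar) (chain_FT m n _)
        (fun u v h => ⟨loc_RT (by omega) (by omega) h.2.2,
          loc_RT (by omega) (by omega) h.2.2.symm⟩)
  · intro l hl
    rw [List.mem_map] at hl
    obtain ⟨t, ht, rfl⟩ := hl
    rw [List.mem_range] at ht
    exact disjoint_of_chains (chain_F2 m n) (chain_FT m n _)
      (fun u v h => ⟨loc_RT (by omega) (by omega) h.2.2,
        loc_RT (by omega) (by omega) h.2.2.symm⟩)
  · rw [List.pairwise_map]
    refine List.Pairwise.imp_of_mem ?_ (List.pairwise_lt_range)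
    intro s t hs ht hst
    rw [List.mem_range] at hs ht
    exact (disjoint_of_chains (chain_FT m n _) (chain_FT m n _)
      (fun u v h => RT_RT (s := s + 1) (t := t + 1) (by omega) (by omega) h)).symm

end Pool.Agent.H641R2.GlobDom
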