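import Pool.Agent.H641R2.GD.Red
import Pool.Agent.NPC.Dec

/-!
# Global domination of path factors: membership in NP
-/

namespace Pool.Agent.H641R2.GlobDom

open Pool.Agent.NPC

/-- Consecutive pairs of a list. -/
def cons2 (l : List ℕ) : List (ℕ × ℕ) := l.zip l.tail

theorem mem_cons2 {u v : ℕ} : ∀ {l : List ℕ}, (u, v) ∈ cons2 l ↔ [u, v] <:+: l
  | [] => by simp [cons2]
  | [a] => by
    simp only [cons2, List.tail_cons, List.zip_nil_right, List.not_mem_nil, false_iff]
    intro h
    have := h.length_le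
    simp at this
  | a :: b :: l => by
    have ih := mem_cons2 (u := u) (v := v) (l := b :: l)
    have e : (u, v) ∈ cons2 (a :: b :: l) ↔ (u = a ∧ v = b) ∨ (u, v) ∈ cons2 (b :: l) := by
      simp only [cons2, List.tail_cons, List.zip_cons_cons, List.mem_cons, Prod.mk.injEq]
    rw [e, ih]
    constructor
    · rintro (⟨rfl, rfl⟩ | h)
      · exact ⟨[], l, rfl⟩
      · exact h.trans ⟨[a], [], by simp⟩
    · intro h
      rcases List.infix_cons_iff.1 h with h | h
      · left
        rw [List.cons_prefix_cons, List.cons_prefix_cons] at h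
        exact ⟨h.1, h.2.1⟩
      · right; exact h

/-- Test: membership of a pair. -/
def hasPair (u v : ℕ) (L : List (ℕ × ℕ)) : Bool :=
  L.any (fun q => decide (q.1 = u) && decide (q.2 = v))

theorem hasPair_iff {u v : ℕ} {l : List ℕ} : hasPair u v (cons2 l) = true ↔ [u, v] <:+: l := by
  rw [← mem_cons2, hasPair]
  simp only [List.any_eq_true, Bool.and_eq_true, decide_eq_true_eq]
  constructor
  · rintro ⟨q, hq, rfl, rfl⟩; exact hq
  · intro h; exact ⟨_, h, rfl, rfl⟩

/-- Test: the list enumerates `{0, ..., n-1}`. -/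
def permTest (n : ℕ) (l : List ℕ) : Bool :=
  decide (l.length = n) && (List.range l.length).all (fun v => decide (v ∈ l))

theorem permTest_iff {n : ℕ} {l : List ℕ} : permTest n l = true ↔ l.Perm (List.range n) := by
  unfold permTest
  simp only [Bool.and_eq_true, decide_eq_true_eq, List.all_eq_true, List.mem_range]
  constructor
  · rintro ⟨h, h'⟩
    exact perm_range_of h (fun v hv => h' v (h ▸ hv))
  · intro h
    have hlen : l.length = n := by simpa using h.length_eq
    refine ⟨hlen, fun v hv => ?_⟩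
    rw [h.mem_iff, List.mem_range]
    omega

/-- Test: the path graphs have no common edge. -/
def disjTest (l l' : List ℕ) : Bool :=
  (cons2 l).all (fun p => !(hasPair p.1 p.2 (cons2 l') || hasPair p.2 p.1 (cons2 l')))

theorem ne_of_infix {l : List ℕ} (hl : l.Nodup) {u v : ℕ} (h : [u, v] <:+: l) : u ≠ v := by
  rintro rfl
  have := hl.sublist h.sublist
  simp at this

theorem disjTest_iff {l l' : List ℕ} (hl : l.Nodup) : disjTest l l' = true ↔
    Disjoint (pathGraph l).edgeSet (pathGraph l').edgeSet := by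
  unfold disjTest
  simp only [List.all_eq_true, Bool.not_eq_true', Prod.forall, mem_cons2, ← Bool.not_eq_true,
    Bool.or_eq_true, hasPair_iff, not_or]
  rw [Set.disjoint_left]
  constructor
  · intro h e he he'
    induction e with
    | _ u v =>
      rw [SimpleGraph.mem_edgeSet] at he he'
      obtain ⟨hne, h1⟩ := he
      obtain ⟨-, h2⟩ := he'
      rcases h1 with h1 | h1 <;> rcases h2 with h2 | h2
      · exact (h _ _ h1).1 h2
      · exact (h _ _ h1).2 h2
      · exact (h _ _ h1).2 h2
      · exact (h _ _ h1).1 h2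
  · intro h u v huv
    have hne := ne_of_infix hl huv
    have h1 : s(u, v) ∈ (pathGraph l).edgeSet := by
      rw [SimpleGraph.mem_edgeSet]
      exact ⟨hne, Or.inl huv⟩
    have h2 := h h1
    rw [SimpleGraph.mem_edgeSet] at h2
    exact ⟨fun h' => h2 ⟨hne, Or.inl h'⟩, fun h' => h2 ⟨hne, Or.inr h'⟩⟩

/-- Test: the paths are pairwise edge-disjoint. -/
def pairTest (Fs : List (List ℕ)) : Bool :=
  Fs.zipIdx.all (fun p => Fs.zipIdx.all (fun p' => !decide (p.2 < p'.2) || disjTest p.1 p'.1))

theorem pairTest_iff {Fs : List (List ℕ)} (h : ∀ l ∈ Fs, l.Nodup) : pairTest Fs = true ↔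
    Fs.Pairwise (fun l l' => Disjoint (pathGraph l).edgeSet (pathGraph l').edgeSet) := by
  rw [List.pairwise_iff_getElem]
  unfold pairTest
  simp only [List.all_eq_true, Bool.or_eq_true, Bool.not_eq_true', decide_eq_false_iff_not,
    Prod.forall, List.mem_zipIdx_iff_getElem?]
  constructor
  · intro H i j hi hj hij
    have := H Fs[i] i (by simp [hi]) Fs[j] j (by simp [hj])
    rw [disjTest_iff (h _ (List.getElem_mem hi))] at this
    exact this.resolve_left (by omega)
  · intro H l i hi l' j hj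
    obtain ⟨hi', rfl⟩ := List.getElem?_eq_some_iff.1 hi
    obtain ⟨hj', rfl⟩ := List.getElem?_eq_some_iff.1 hj
    by_cases hij : i < j
    · right
      rw [disjTest_iff (h _ (List.getElem_mem hi'))]
      exact H i j hi' hj' hij
    · left; exact hij

/-- Test: the set of entries of `w` dominates the path. -/
def domTest (w l : List ℕ) : Bool :=
  l.all (fun v => decide (v ∈ w) ||
    w.any (fun u => hasPair v u (cons2 l) || hasPair u v (cons2 l)))

theorem domTest_iff {n : ℕ} {w l : List ℕ} (hl : l.Perm (List.range n)) :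
    domTest w l = true ↔ Dominates n (pathGraph l) w.toFinset := by
  unfold domTest Dominates
  simp only [List.all_eq_true, Bool.or_eq_true, decide_eq_true_eq, List.any_eq_true,
    hasPair_iff, List.mem_toFinset]
  constructor
  · intro h v hv hvw
    have hvl : v ∈ l := hl.mem_iff.2 (by simpa using hv)
    rcases h v hvl with h | ⟨u, hu, h⟩
    · exact absurd h hvw
    · exact ⟨u, hu, fun e => hvw (e ▸ hu), h⟩
  · intro h v hvl
    by_cases hvw : v ∈ w
    · exact Or.inl hvw
    · obtain ⟨u, hu, -, h'⟩ := h v (by simpa using hl.mem_iff.1 hvl) hvw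
      exact Or.inr ⟨u, hu, h'⟩

/-- The verifier. -/
def ver (k : ℕ) (x : (ℕ × List (List ℕ) × ℕ) × List ℕ) : Bool :=
  (((decide (0 < x.1.1) && decide (x.1.2.1.length = k)) &&
    (x.1.2.1.all (fun l => permTest x.1.1 l) && pairTest x.1.2.1)) &&
    (decide (x.2.length ≤ x.1.2.2) && x.2.all (fun v => decide (v < x.1.1)))) &&
    x.1.2.1.all (fun l => domTest x.2 l)

section PolyVer

variable {α : Type} [TEnc α]

theorem poly_cons2 {l : α → List ℕ} (hl : Poly l) : Poly (fun a => cons2 (l a)) :=
  Poly.zip hl (Poly.tail hl)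

theorem poly_permTest {n : α → ℕ} {l : α → List ℕ} (hn : Poly n) (hl : Poly l) :
    Poly (fun a => permTest (n a) (l a)) :=
  NPC.Poly.and (Poly.decide_eq (Poly.length hl) hn)
    (Poly.all (p := fun a v => decide (v ∈ l a)) (Poly.range_length hl)
      (Poly.decide_mem (Poly.snd Poly.id) (hl.comp (Poly.fst Poly.id))))

theorem poly_hasPair {u v : α → ℕ} {L : α → List (ℕ × ℕ)} (hu : Poly u) (hv : Poly v)
    (hL : Poly L) : Poly (fun a => hasPair (u a) (v a) (L a)) := by
  unfold hasPair
  refine Poly.any (p := fun a (q : ℕ × ℕ) => decide (q.1 = u a) && decide (q.2 = v a)) hL ?_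
  refine NPC.Poly.and ?_ ?_
  · exact Poly.decide_eq (f := fun x : α × ℕ × ℕ => x.2.1) (g := fun x => u x.1)
      (Poly.fst (Poly.snd Poly.id)) (hu.comp (Poly.fst Poly.id))
  · exact Poly.decide_eq (f := fun x : α × ℕ × ℕ => x.2.2) (g := fun x => v x.1)
      (Poly.snd (Poly.snd Poly.id)) (hv.comp (Poly.fst Poly.id))

theorem poly_disjTest {l l' : α → List ℕ} (hl : Poly l) (hl' : Poly l') :
    Poly (fun a => disjTest (l a) (l' a)) := by
  unfold disjTest
  have h1 : Poly (fun x : α × ℕ × ℕ => cons2 (l' x.1)) := (poly_cons2 hl').comp (Poly.fst Poly.id)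
  have h2 : Poly (fun x : α × ℕ × ℕ => x.2.1) := Poly.fst (Poly.snd Poly.id)
  have h3 : Poly (fun x : α × ℕ × ℕ => x.2.2) := Poly.snd (Poly.snd Poly.id)
  refine Poly.all (p := fun a (p : ℕ × ℕ) =>
    !(hasPair p.1 p.2 (cons2 (l' a)) || hasPair p.2 p.1 (cons2 (l' a)))) (poly_cons2 hl) ?_
  exact NPC.Poly.not (NPC.Poly.or (poly_hasPair h2 h3 h1) (poly_hasPair h3 h2 h1))

theorem poly_pairTest {Fs : α → List (List ℕ)} (hF : Poly Fs) :
    Poly (fun a => pairTest (Fs a)) := by
  unfold pairTest
  refine Poly.all (p := fun a p => (Fs a).zipIdx.all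
    (fun p' => !decide (p.2 < p'.2) || disjTest p.1 p'.1)) (Poly.zipIdx hF) ?_
  refine Poly.all (p := fun (x : α × List ℕ × ℕ) (p' : List ℕ × ℕ) =>
    !decide (x.2.2 < p'.2) || disjTest x.2.1 p'.1)
    ((Poly.zipIdx hF).comp (Poly.fst Poly.id)) ?_
  exact NPC.Poly.or (NPC.Poly.not (Poly.decide_lt (Poly.snd (Poly.snd (Poly.fst Poly.id)))
    (Poly.snd (Poly.snd Poly.id))))
    (poly_disjTest (Poly.fst (Poly.snd (Poly.fst Poly.id))) (Poly.fst (Poly.snd Poly.id)))

theorem poly_domTest {w l : α → List ℕ} (hw : Poly w) (hl : Poly l) :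
    Poly (fun a => domTest (w a) (l a)) := by
  unfold domTest
  refine Poly.all (p := fun a v => decide (v ∈ w a) ||
    (w a).any (fun u => hasPair v u (cons2 (l a)) || hasPair u v (cons2 (l a)))) hl ?_
  refine NPC.Poly.or (Poly.decide_mem (Poly.snd Poly.id) (hw.comp (Poly.fst Poly.id))) ?_
  refine Poly.any (p := fun (x : α × ℕ) (u : ℕ) => hasPair x.2 u (cons2 (l x.1)) ||
    hasPair u x.2 (cons2 (l x.1))) (hw.comp (Poly.fst Poly.id)) ?_
  have h1 : Poly (fun x : (α × ℕ) × ℕ => cons2 (l x.1.1)) :=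
    (poly_cons2 hl).comp (Poly.fst (Poly.fst Poly.id))
  exact NPC.Poly.or
    (poly_hasPair (Poly.snd (Poly.fst Poly.id)) (Poly.snd Poly.id) h1)
    (poly_hasPair (Poly.snd Poly.id) (Poly.snd (Poly.fst Poly.id)) h1)

end PolyVer

theorem poly_ver (k : ℕ) : Poly (ver k) := by
  unfold ver
  have hn : Poly (fun x : (ℕ × List (List ℕ) × ℕ) × List ℕ => x.1.1) := Poly.fst (Poly.fst Poly.id)
  have hF : Poly (fun x : (ℕ × List (List ℕ) × ℕ) × List ℕ => x.1.2.1) :=
    Poly.fst (Poly.snd (Poly.fst Poly.id))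
  have hM : Poly (fun x : (ℕ × List (List ℕ) × ℕ) × List ℕ => x.1.2.2) :=
    Poly.snd (Poly.snd (Poly.fst Poly.id))
  have hw : Poly (fun x : (ℕ × List (List ℕ) × ℕ) × List ℕ => x.2) := Poly.snd Poly.id
  refine NPC.Poly.and (NPC.Poly.and (NPC.Poly.and (NPC.Poly.and
    (Poly.decide_lt (NPC.Poly.const 0) hn)
    (Poly.decide_eq (Poly.length hF) (NPC.Poly.const k)))
    (NPC.Poly.and (Poly.all (p := fun x l => permTest x.1.1 l) hF ?_) (poly_pairTest hF)))
    (NPC.Poly.and (Poly.decide_le (Poly.length hw) hM)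
      (Poly.all (p := fun x v => decide (v < x.1.1)) hw ?_)))
    (Poly.all (p := fun x l => domTest x.2 l) hF ?_)
  · exact poly_permTest (hn.comp (Poly.fst Poly.id)) (Poly.snd Poly.id)
  · exact Poly.decide_lt (Poly.snd Poly.id) (hn.comp (Poly.fst Poly.id))
  · exact poly_domTest (hw.comp (Poly.fst Poly.id)) (Poly.snd Poly.id)

theorem inNPP_GD (k : ℕ) (hk : 1 ≤ k) : InNPP (GD k) := by
  refine inNPP_of (poly_ver k) (Polynomial.X * (Polynomial.C 4 * Polynomial.X + 2) + 1) ?_
  rintro ⟨n, Fs, M⟩
  unfold GD ver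
  simp only [gdn_le_iff, Bool.and_eq_true, decide_eq_true_eq, List.all_eq_true, permTest_iff]
  constructor
  · rintro ⟨hn, hk', hperm, hpair, D, hD, hc, hdom⟩
    have hnd : ∀ l ∈ Fs, l.Nodup := fun l hl => (hperm l hl).nodup_iff.2 List.nodup_range
    have hlen : D.toList.length = D.card := Finset.length_toList D
    refine ⟨D.toList, ?_, ⟨⟨⟨hn, hk'⟩, hperm, (pairTest_iff hnd).2 hpair⟩, by omega, ?_⟩, ?_⟩
    · obtain ⟨l, hl⟩ : ∃ l, l ∈ Fs := by
        cases Fs with
        | nil => simp at hk'; omega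
        | cons l _ => exact ⟨l, by simp⟩
      have h1 : n < sz (n, Fs, M) := by
        have e1 := length_lt_sz l
        have e2 := sz_le_of_mem hl
        have e3 : l.length = n := by simpa using (hperm l hl).length_eq
        simp only [sz_pair]
        omega
      have h2 : D.card ≤ n := by simpa using Finset.card_le_card hD
      have h3 : sz D.toList ≤ D.toList.length * (4 * n + 1 + 1) + 1 := by
        refine sz_le_length_mul _ _ ?_
        intro v hv
        have hv' : v < n := by simpa using hD (by simpa using hv)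
        have e1 := sz_nat_le v
        have e2 := Poly.size_le_self v
        omega
      simp only [Polynomial.eval_add, Polynomial.eval_mul, Polynomial.eval_X, Polynomial.eval_C,
        Polynomial.eval_one, Polynomial.eval_ofNat]
      rw [hlen] at h3
      refine h3.trans (Nat.add_le_add_right (Nat.mul_le_mul (by omega) (by omega)) 1)
    · intro v hv
      simpa using hD (by simpa using hv)
    · intro l hl
      rw [domTest_iff (hperm l hl), Finset.toList_toFinset]
      exact hdom l hl
  · rintro ⟨w, -, ⟨⟨⟨hn, hk'⟩, hperm, hpair⟩, hc, hw⟩, hdom⟩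
    have hnd : ∀ l ∈ Fs, l.Nodup := fun l hl => (hperm l hl).nodup_iff.2 List.nodup_range
    refine ⟨hn, hk', hperm, (pairTest_iff hnd).1 hpair, w.toFinset, ?_, ?_, ?_⟩
    · intro v hv
      simpa using hw v (by simpa using hv)
    · exact (List.toFinset_card_le w).trans hc
    · intro l hl
      exact (domTest_iff (hperm l hl)).1 (hdom l hl)

end Pool.Agent.H641R2.GlobDom
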