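import Pool.Agent.H641R2.GD.Edges

/-!
# Global domination of path factors: correctness of the reduction
-/

namespace Pool.Agent.H641R2.GlobDom

/-- Satisfiability of the formula with `m` clauses whose literal number `o` (`o < 3 m`) is the
variable `var o` with sign `sgn o`. -/
def SatP (m : ℕ) (var : ℕ → ℕ) (sgn : ℕ → Bool) : Prop :=
  ∃ τ : ℕ → Bool, ∀ j < m, ∃ r < 3, τ (var (3 * j + r)) = sgn (3 * j + r)

/-! ### Soundness -/

theorem sum21 (f : ℕ → ℕ) : ∑ r ∈ Finset.range 21, f r = f 0 + f 1 + f 2 + f 3 + f 4 + f 5 + f 6 +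
    f 7 + f 8 + f 9 + f 10 + f 11 + f 12 + f 13 + f 14 + f 15 + f 16 + f 17 + f 18 + f 19 +
    f 20 := by
  simp only [Finset.sum_range_succ, Finset.sum_range_zero, zero_add]

theorem card_eq_sum {P : ℕ} {D : Finset ℕ} (hD : D ⊆ Finset.range (21 * P)) :
    D.card = ∑ q ∈ Finset.range P, ∑ r ∈ Finset.range 21, (if vx q r ∈ D then 1 else 0) := by
  have h1 : D = (Finset.range (21 * P)).filter (· ∈ D) := by
    ext v
    simp only [Finset.mem_filter]
    exact ⟨fun h => ⟨hD h, h⟩, fun h => h.2⟩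
  conv_lhs => rw [h1]
  rw [Finset.card_filter, sum_range_mul]
  refine Finset.sum_congr rfl fun q _ => Finset.sum_congr rfl fun r _ => ?_
  rw [vx, Nat.mul_comm]

section Sound

variable {m n : ℕ} {var : ℕ → ℕ} {sgn : ℕ → Bool} {D : Finset ℕ}

theorem cell1_infix {q : ℕ} (hq : q < PP m n) : cell1 m n var sgn q <:+: F1 m n var sgn :=
  infix_flatMap (List.mem_range.2 hq)

theorem mid_infix {q : ℕ} (hq : q < PP m n) : mid m n var sgn q <:+: F1 m n var sgn := by
  refine List.IsInfix.trans ?_ (cell1_infix hq)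
  exact ⟨[vx q 3, vx q 1], [vx q 9, vx q 15, vx q 6, vx q 7, vx q 8, vx q 0,
    vx q 14, vx q 10, vx q 11, vx q 12, vx q 13, vx q 16, vx q 17, vx q 18], by simp [cell1]⟩

theorem cellC_infix {q : ℕ} (hq : q < PP m n) : cellC q <:+: F2 m n :=
  (infix_flatMap (List.mem_range.2 hq)).trans ⟨[], (List.range (PP m n)).flatMap cell2, rfl⟩

theorem cell2_infix {q : ℕ} (hq : q < PP m n) : cell2 q <:+: F2 m n :=
  (infix_flatMap (List.mem_range.2 hq)).trans ⟨(List.range (PP m n)).flatMap cellC, [], by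
    simp [F2]⟩

/-- All windows inside a cell, as inequalities. -/
structure Win (D : Finset ℕ) (q : ℕ) : Prop where
  w0 : vx q 0 ∈ D ∨ vx q 1 ∈ D ∨ vx q 2 ∈ D
  w1 : vx q 3 ∈ D ∨ vx q 4 ∈ D ∨ vx q 5 ∈ D
  w2 : vx q 6 ∈ D ∨ vx q 7 ∈ D ∨ vx q 8 ∈ D
  w3 : vx q 6 ∈ D ∨ vx q 9 ∈ D ∨ vx q 10 ∈ D
  w4 : vx q 9 ∈ D ∨ vx q 10 ∈ D ∨ vx q 8 ∈ D
  w5 : vx q 11 ∈ D ∨ vx q 12 ∈ D ∨ vx q 13 ∈ D
  w6 : vx q 11 ∈ D ∨ vx q 14 ∈ D ∨ vx q 15 ∈ D
  w7 : vx q 14 ∈ D ∨ vx q 15 ∈ D ∨ vx q 13 ∈ D
  w8 : vx q 16 ∈ D ∨ vx q 17 ∈ D ∨ vx q 18 ∈ D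
  w9 : vx q 16 ∈ D ∨ vx q 19 ∈ D ∨ vx q 20 ∈ D
  w10 : vx q 19 ∈ D ∨ vx q 20 ∈ D ∨ vx q 18 ∈ D

theorem win (hvar : ∀ o < 3 * m, var o < n)
    (hD1 : Dominates (21 * PP m n) (pathGraph (F1 m n var sgn)) D)
    (hD2 : Dominates (21 * PP m n) (pathGraph (F2 m n)) D) {q : ℕ} (hq : q < PP m n) :
    Win D q := by
  have h1 := fun {x y z : ℕ} (h : [x, y, z] <:+: cell1 m n var sgn q) =>
    hit_of_infix (F1_perm hvar) hD1 (h.trans (cell1_infix hq))
  have h2 := fun {x y z : ℕ} (h : [x, y, z] <:+: cellC q) =>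
    hit_of_infix (F2_perm m n) hD2 (h.trans (cellC_infix hq))
  have h3 := fun {x y z : ℕ} (h : [x, y, z] <:+: cell2 q) =>
    hit_of_infix (F2_perm m n) hD2 (h.trans (cell2_infix hq))
  refine ⟨h2 ⟨[], [vx q 3, vx q 4, vx q 5], by simp [cellC]⟩,
    h2 ⟨[vx q 0, vx q 1, vx q 2], [], by simp [cellC]⟩,
    h1 ⟨vx q 3 :: vx q 1 :: (mid m n var sgn q ++ [vx q 9, vx q 15]), [vx q 0,
      vx q 14, vx q 10, vx q 11, vx q 12, vx q 13, vx q 16, vx q 17, vx q 18], by simp [cell1]⟩,
    h3 ⟨[], [vx q 8, vx q 12, vx q 16, vx q 19, vx q 20,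
      vx q 18, vx q 7, vx q 11, vx q 14, vx q 15, vx q 13, vx q 17], by simp [cell2]⟩,
    h3 ⟨[vx q 6], [vx q 12, vx q 16, vx q 19, vx q 20,
      vx q 18, vx q 7, vx q 11, vx q 14, vx q 15, vx q 13, vx q 17], by simp [cell2]⟩,
    h1 ⟨vx q 3 :: vx q 1 :: (mid m n var sgn q ++ [vx q 9, vx q 15, vx q 6, vx q 7, vx q 8, vx q 0,
      vx q 14, vx q 10]), [vx q 16, vx q 17, vx q 18], by simp [cell1]⟩,
    h3 ⟨[vx q 6, vx q 9, vx q 10, vx q 8, vx q 12, vx q 16, vx q 19, vx q 20,
      vx q 18, vx q 7], [vx q 13, vx q 17], by simp [cell2]⟩,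
    h3 ⟨[vx q 6, vx q 9, vx q 10, vx q 8, vx q 12, vx q 16, vx q 19, vx q 20,
      vx q 18, vx q 7, vx q 11], [vx q 17], by simp [cell2]⟩,
    h1 ⟨vx q 3 :: vx q 1 :: (mid m n var sgn q ++ [vx q 9, vx q 15, vx q 6, vx q 7, vx q 8, vx q 0,
      vx q 14, vx q 10, vx q 11, vx q 12, vx q 13]), [], by simp [cell1]⟩,
    h3 ⟨[vx q 6, vx q 9, vx q 10, vx q 8, vx q 12],
      [vx q 18, vx q 7, vx q 11, vx q 14, vx q 15, vx q 13, vx q 17], by simp [cell2]⟩,
    h3 ⟨[vx q 6, vx q 9, vx q 10, vx q 8, vx q 12, vx q 16],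
      [vx q 7, vx q 11, vx q 14, vx q 15, vx q 13, vx q 17], by simp [cell2]⟩⟩

theorem ge_one {a b c : ℕ} (h : a ∈ D ∨ b ∈ D ∨ c ∈ D) :
    1 ≤ (if a ∈ D then 1 else 0) + (if b ∈ D then 1 else 0) + (if c ∈ D then 1 else 0) := by
  rcases h with h | h | h <;> simp only [h, if_true] <;> omega

theorem sum_ge {q : ℕ} (h : Win D q) :
    8 ≤ ∑ r ∈ Finset.range 21, (if vx q r ∈ D then 1 else 0) := by
  rw [sum21]
  have a0 := ge_one h.w0
  have a1 := ge_one h.w1
  have a2 := ge_one h.w2
  have a3 := ge_one h.w3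
  have a4 := ge_one h.w4
  have a5 := ge_one h.w5
  have a6 := ge_one h.w6
  have a7 := ge_one h.w7
  have a8 := ge_one h.w8
  have a9 := ge_one h.w9
  have a10 := ge_one h.w10
  omega

/-- Consequences of the size bound. -/
theorem tight (hvar : ∀ o < 3 * m, var o < n)
    (hD1 : Dominates (21 * PP m n) (pathGraph (F1 m n var sgn)) D)
    (hD2 : Dominates (21 * PP m n) (pathGraph (F2 m n)) D)
    (hD : D ⊆ Finset.range (21 * PP m n)) (hc : D.card ≤ 8 * PP m n) {q : ℕ} (hq : q < PP m n) :
    ∑ r ∈ Finset.range 21, (if vx q r ∈ D then 1 else 0) = 8 := by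
  have hge : ∀ q ∈ Finset.range (PP m n),
      8 ≤ ∑ r ∈ Finset.range 21, (if vx q r ∈ D then 1 else 0) := fun q hq =>
    sum_ge (win hvar hD1 hD2 (Finset.mem_range.1 hq))
  rw [card_eq_sum hD] at hc
  have hle : ∑ q ∈ Finset.range (PP m n), ∑ r ∈ Finset.range 21, (if vx q r ∈ D then 1 else 0) ≤
      ∑ _q ∈ Finset.range (PP m n), 8 := by
    simpa [Nat.mul_comm] using hc
  have := (Finset.sum_eq_sum_iff_of_le hge).1 (le_antisymm (Finset.sum_le_sum hge) hle) q
    (Finset.mem_range.2 hq)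
  exact this.symm

theorem tight_ab {q : ℕ} (h : Win D q)
    (h8 : ∑ r ∈ Finset.range 21, (if vx q r ∈ D then 1 else 0) = 8) :
    ¬ (vx q 19 ∈ D ∧ vx q 20 ∈ D) := by
  rintro ⟨h19, h20⟩
  rw [sum21] at h8
  have a0 := ge_one h.w0
  have a1 := ge_one h.w1
  have a2 := ge_one h.w2
  have a3 := ge_one h.w3
  have a4 := ge_one h.w4
  have a5 := ge_one h.w5
  have a6 := ge_one h.w6
  have a7 := ge_one h.w7
  have a8 := ge_one h.w8
  simp only [h19, h20, if_true] at h8
  omega

theorem tight_C0 {q : ℕ} (h : Win D q)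
    (h8 : ∑ r ∈ Finset.range 21, (if vx q r ∈ D then 1 else 0) = 8)
    (h01 : vx q 0 ∈ D ∨ vx q 1 ∈ D) : vx q 2 ∉ D := by
  intro h2
  rw [sum21] at h8
  have a1 := ge_one h.w1
  have a2 := ge_one h.w2
  have a3 := ge_one h.w3
  have a4 := ge_one h.w4
  have a5 := ge_one h.w5
  have a6 := ge_one h.w6
  have a7 := ge_one h.w7
  have a8 := ge_one h.w8
  have a9 := ge_one h.w9
  have a10 := ge_one h.w10
  rcases h01 with h01 | h01 <;> simp only [h01, h2, if_true] at h8 <;> omega

theorem tight_C1 {q : ℕ} (h : Win D q)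
    (h8 : ∑ r ∈ Finset.range 21, (if vx q r ∈ D then 1 else 0) = 8)
    (h34 : vx q 3 ∈ D ∨ vx q 4 ∈ D) : vx q 5 ∉ D := by
  intro h5
  rw [sum21] at h8
  have a0 := ge_one h.w0
  have a2 := ge_one h.w2
  have a3 := ge_one h.w3
  have a4 := ge_one h.w4
  have a5 := ge_one h.w5
  have a6 := ge_one h.w6
  have a7 := ge_one h.w7
  have a8 := ge_one h.w8
  have a9 := ge_one h.w9
  have a10 := ge_one h.w10
  rcases h34 with h34 | h34 <;> simp only [h34, h5, if_true] at h8 <;> omega

theorem guards (hvar : ∀ o < 3 * m, var o < n)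
    (hD1 : Dominates (21 * PP m n) (pathGraph (F1 m n var sgn)) D)
    (hD2 : Dominates (21 * PP m n) (pathGraph (F2 m n)) D)
    (hD : D ⊆ Finset.range (21 * PP m n)) (hc : D.card ≤ 8 * PP m n) : ∀ (q : ℕ), q < PP m n →
    vx q 2 ∉ D ∧ vx q 5 ∉ D := by
  have step : ∀ q < PP m n, (vx q 0 ∈ D ∨ vx q 1 ∈ D) → vx q 2 ∉ D ∧ vx q 5 ∉ D := by
    intro q hq h01
    have hw := win hvar hD1 hD2 hq
    have h8 := tight hvar hD1 hD2 hD hc hq
    have h2 := tight_C0 hw h8 h01
    refine ⟨h2, tight_C1 hw h8 ?_⟩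
    have := hit_of_infix (F2_perm m n) hD2 (x := vx q 2) (y := vx q 3) (z := vx q 4)
      (List.IsInfix.trans ⟨[vx q 0, vx q 1], [vx q 5], by simp [cellC]⟩ (cellC_infix hq))
    exact this.resolve_left h2
  intro q
  induction q with
  | zero =>
    intro hq
    refine step 0 hq ?_
    refine hit_of_prefix (F2_perm m n) hD2 ?_
    obtain ⟨P, hP⟩ : ∃ P, PP m n = P + 1 := ⟨PP m n - 1, by omega⟩
    unfold F2
    rw [hP, List.range_succ_eq_map, List.flatMap_cons, cellC]
    simp only [List.cons_append, List.nil_append]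
    exact ⟨_, rfl⟩
  | succ q ih =>
    intro hq
    have hq' := ih (by omega)
    refine step (q + 1) hq ?_
    have hinf : [vx q 5, vx (q + 1) 0, vx (q + 1) 1] <:+: F2 m n := by
      have h1 : cellC q ++ cellC (q + 1) <:+: F2 m n :=
        (infix_flatMap_range hq).trans ⟨[], (List.range (PP m n)).flatMap cell2, rfl⟩
      refine List.IsInfix.trans ?_ h1
      exact ⟨[vx q 0, vx q 1, vx q 2, vx q 3, vx q 4], [vx (q + 1) 2, vx (q + 1) 3, vx (q + 1) 4,
        vx (q + 1) 5], by simp [cellC]⟩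
    exact (hit_of_infix (F2_perm m n) hD2 hinf).resolve_left hq'.2

theorem sound (hvar : ∀ o < 3 * m, var o < n)
    (hD1 : Dominates (21 * PP m n) (pathGraph (F1 m n var sgn)) D)
    (hD2 : Dominates (21 * PP m n) (pathGraph (F2 m n)) D)
    (hD : D ⊆ Finset.range (21 * PP m n)) (hc : D.card ≤ 8 * PP m n) : SatP m var sgn := by
  have hg := guards hvar hD1 hD2 hD hc
  have hab : ∀ q < PP m n, ¬ (vx q 19 ∈ D ∧ vx q 20 ∈ D) := fun q hq =>
    tight_ab (win hvar hD1 hD2 hq) (tight hvar hD1 hD2 hD hc hq)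
  have hit := fun {x y z : ℕ} (h : [x, y, z] <:+: F1 m n var sgn) =>
    hit_of_infix (F1_perm hvar) hD1 h
  -- the chains
  have chain : ∀ v < n, ∀ o < 3 * m, vx (v * (3 * m) + o) 20 ∈ D ∨
      vx (v * (3 * m) + (o + 1) % (3 * m)) 19 ∈ D := by
    intro v hv o ho
    have hq : v * (3 * m) + o < PP m n := blk_lt ho (by omega)
    obtain ⟨g2, g5⟩ := hg _ hq
    have hmid := mid_infix (var := var) (sgn := sgn) hq
    unfold mid at hmid
    rw [blk_div ho, blk_mod ho, if_pos hv, nx_blk ho] at hmid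
    split_ifs at hmid with h1 h2
    · have := hit (List.IsInfix.trans ⟨[], _, by
        simp only [List.nil_append, List.cons_append]; rfl⟩ hmid)
      exact this.resolve_left g5
    · have := hit (x := vx (v * (3 * m) + o) 20)
        (y := vx (v * (3 * m) + (o + 1) % (3 * m)) 19) (z := vx (v * (3 * m) + o) 2)
        (List.IsInfix.trans ⟨[vx (v * (3 * m) + o) 5, vx (n * (3 * m) + o) 20],
          [vx (v * (3 * m) + o) 4], by simp⟩ hmid)
      rcases this with h | h | h
      · exact Or.inl h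
      · exact Or.inr h
      · exact absurd h g2
    · have := hit (List.IsInfix.trans ⟨[], _, by
        simp only [List.nil_append, List.cons_append]; rfl⟩ hmid)
      exact this.resolve_left g5
  have chain' : ∀ v < n, ∀ o < 3 * m, vx (v * (3 * m) + o) 19 ∈ D →
      vx (v * (3 * m) + (o + 1) % (3 * m)) 19 ∈ D := by
    intro v hv o ho h
    rcases chain v hv o ho with h1 | h1
    · exact absurd ⟨h, h1⟩ (hab _ (blk_lt ho (by omega)))
    · exact h1
  have up : ∀ v < n, ∀ k o, o + k < 3 * m → vx (v * (3 * m) + o) 19 ∈ D →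
      vx (v * (3 * m) + (o + k)) 19 ∈ D := by
    intro v hv k
    induction k with
    | zero => intro o _ h; exact h
    | succ k ih =>
      intro o ho h
      have h1 := chain' v hv (o + k) (by omega) (ih o (by omega) h)
      rwa [Nat.mod_eq_of_lt (by omega)] at h1
  have all : ∀ v < n, ∀ o < 3 * m, (vx (v * (3 * m) + o) 19 ∈ D ↔ vx (v * (3 * m)) 19 ∈ D) := by
    intro v hv o ho
    constructor
    · intro h
      have h1 := up v hv (3 * m - 1 - o) o (by omega) h
      rw [show o + (3 * m - 1 - o) = 3 * m - 1 by omega] at h1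
      have h2 := chain' v hv (3 * m - 1) (by omega) h1
      rwa [show 3 * m - 1 + 1 = 3 * m by omega, Nat.mod_self, Nat.add_zero] at h2
    · intro h
      have := up v hv o 0 (by omega) (by simpa using h)
      simpa using this
  refine ⟨fun v => decide (vx (v * (3 * m)) 19 ∈ D), fun j hj => ?_⟩
  -- the clause
  have hq : n * (3 * m) + 3 * j < PP m n := blk_lt (by omega) (by omega)
  have hmid := mid_infix (var := var) (sgn := sgn) hq
  unfold mid at hmid
  rw [blk_div (by omega : 3 * j < 3 * m), blk_mod (by omega : 3 * j < 3 * m), if_neg (by omega),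
    if_pos (by omega)] at hmid
  have hcl := hit (List.IsInfix.trans ⟨[], _, by
        simp only [List.nil_append, List.cons_append]; rfl⟩ hmid)
  have key : ∀ o < 3 * m, vx (n * (3 * m) + o) 19 ∈ D →
      decide (vx (var o * (3 * m)) 19 ∈ D) = sgn o := by
    intro o ho hc
    have hd : vx (n * (3 * m) + o) 20 ∉ D := fun h =>
      hab _ (blk_lt ho (by omega)) ⟨hc, h⟩
    have hvo := hvar o ho
    have hq : var o * (3 * m) + o < PP m n := blk_lt ho (by omega)
    obtain ⟨g2, g5⟩ := hg _ hq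
    have hmid := mid_infix (var := var) (sgn := sgn) hq
    unfold mid at hmid
    rw [blk_div ho, blk_mod ho, if_pos hvo, nx_blk ho, if_pos rfl] at hmid
    split_ifs at hmid with h1
    · have := hit (x := vx (var o * (3 * m) + (o + 1) % (3 * m)) 19)
        (y := vx (n * (3 * m) + o) 20) (z := vx (var o * (3 * m) + o) 2)
        (List.IsInfix.trans ⟨[vx (var o * (3 * m) + o) 5, vx (var o * (3 * m) + o) 20],
          [vx (var o * (3 * m) + o) 4], by simp⟩ hmid)
      have h2 : vx (var o * (3 * m) + (o + 1) % (3 * m)) 19 ∈ D := by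
        rcases this with h | h | h
        · exact h
        · exact absurd h hd
        · exact absurd h g2
      rw [all _ hvo _ (Nat.mod_lt _ (by omega))] at h2
      rw [h1]
      simpa using h2
    · have := hit (List.IsInfix.trans ⟨[], _, by
        simp only [List.nil_append, List.cons_append]; rfl⟩ hmid)
      have h2 : vx (var o * (3 * m) + o) 20 ∈ D := by
        rcases this with h | h | h
        · exact absurd h g5
        · exact absurd h hd
        · exact h
      have h3 : vx (var o * (3 * m) + o) 19 ∉ D := fun h => hab _ hq ⟨h, h2⟩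
      rw [all _ hvo _ ho] at h3
      have h4 : sgn o = false := by simpa using h1
      rw [h4]
      simpa using h3
  rcases hcl with h | h | h
  · exact ⟨0, by omega, key (3 * j) (by omega) h⟩
  · exact ⟨1, by omega, key (3 * j + 1) (by omega) (by rwa [← Nat.add_assoc])⟩
  · exact ⟨2, by omega, key (3 * j + 2) (by omega) (by rwa [← Nat.add_assoc])⟩

end Sound

/-! ### Completeness -/

/-- The truth value attached to the pair number `q`. -/
def tru (m n : ℕ) (var : ℕ → ℕ) (sgn : ℕ → Bool) (τ : ℕ → Bool) (q : ℕ) : Bool :=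
  if q / (3 * m) < n then τ (q / (3 * m))
  else decide (τ (var (q % (3 * m))) = sgn (q % (3 * m)))

/-- Membership in the dominating set, by role. -/
def inDr (b : Bool) (r : ℕ) : Bool :=
  [false, true, false, false, true, false, false, true, false, true, false, false, true, false,
    true, false, false, true, false, b, !b].getD r false

/-- The dominating set. -/
def DD (m n : ℕ) (T : ℕ → Bool) : Finset ℕ :=
  (Finset.range (21 * PP m n)).filter (fun v => inDr (T (v / 21)) (v % 21) = true)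

theorem mem_DD {m n : ℕ} {T : ℕ → Bool} {q r : ℕ} (hq : q < PP m n) (hr : r < 21) :
    vx q r ∈ DD m n T ↔ inDr (T q) r = true := by
  unfold DD
  rw [Finset.mem_filter, vx_div hr, vx_mod hr, Finset.mem_range]
  refine ⟨fun h => h.2, fun h => ⟨?_, h⟩⟩
  unfold vx
  omega

theorem card_DD (m n : ℕ) (T : ℕ → Bool) : (DD m n T).card = 8 * PP m n := by
  rw [card_eq_sum (P := PP m n) (D := DD m n T) (Finset.filter_subset _ _)]
  have : ∀ q ∈ Finset.range (PP m n),
      ∑ r ∈ Finset.range 21, (if vx q r ∈ DD m n T then 1 else 0) = 8 := by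
    intro q hq
    rw [Finset.mem_range] at hq
    have : ∑ r ∈ Finset.range 21, (if vx q r ∈ DD m n T then 1 else 0) =
        ∑ r ∈ Finset.range 21, (if inDr (T q) r = true then 1 else 0) := by
      refine Finset.sum_congr rfl fun r hr => ?_
      simp only [mem_DD hq (Finset.mem_range.1 hr)]
    rw [this]
    cases T q <;> decide
  rw [Finset.sum_congr rfl this]
  simp [Nat.mul_comm]

section Complete

variable {m n : ℕ} {T : ℕ → Bool}

theorem run_in {D : Finset ℕ} {c v : ℕ} {l : List ℕ} {c' : ℕ} (hv : v ∈ D) (h : Run D 0 l c') :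
    Run D c (v :: l) c' := by
  simp only [Run, hv, if_true]
  exact h

theorem run_out {D : Finset ℕ} {c v : ℕ} {l : List ℕ} {c' : ℕ} (hc : c ≤ 1)
    (h1 : v ∈ D → Run D 0 l c') (h : v ∉ D → Run D (c + 1) l c') :
    Run D c (v :: l) c' := by
  by_cases hv : v ∈ D
  · exact run_in hv (h1 hv)
  · simp only [Run, hv, if_false]
    exact ⟨hc, h hv⟩

theorem run_non {D : Finset ℕ} {c v : ℕ} {l : List ℕ} {c' : ℕ} (hv : v ∉ D) (hc : c ≤ 1)
    (h : Run D (c + 1) l c') : Run D c (v :: l) c' :=
  run_out hc (fun h' => absurd h' hv) (fun _ => h)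

/-- the tail of a cell of the first path -/
theorem run_tail1 {q : ℕ} (hq : q < PP m n) (c : ℕ) : Run (DD m n T) c [vx q 9, vx q 15, vx q 6,
    vx q 7, vx q 8, vx q 0, vx q 14, vx q 10, vx q 11, vx q 12, vx q 13, vx q 16, vx q 17,
    vx q 18] 1 := by
  have hin : ∀ r, r < 21 → inDr (T q) r = true → vx q r ∈ DD m n T := fun r hr h =>
    (mem_DD hq hr).2 h
  have hout : ∀ r, r < 21 → ¬ inDr (T q) r = true → vx q r ∉ DD m n T := fun r hr h h' =>
    h ((mem_DD hq hr).1 h')
  refine run_in (hin 9 (by decide) rfl) ?_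
  refine run_non (hout 15 (by decide) (by simp [inDr])) (by decide) ?_
  refine run_non (hout 6 (by decide) (by simp [inDr])) (by decide) ?_
  refine run_in (hin 7 (by decide) rfl) ?_
  refine run_non (hout 8 (by decide) (by simp [inDr])) (by decide) ?_
  refine run_non (hout 0 (by decide) (by simp [inDr])) (by decide) ?_
  refine run_in (hin 14 (by decide) rfl) ?_
  refine run_non (hout 10 (by decide) (by simp [inDr])) (by decide) ?_
  refine run_non (hout 11 (by decide) (by simp [inDr])) (by decide) ?_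
  refine run_in (hin 12 (by decide) rfl) ?_
  refine run_non (hout 13 (by decide) (by simp [inDr])) (by decide) ?_
  refine run_non (hout 16 (by decide) (by simp [inDr])) (by decide) ?_
  refine run_in (hin 17 (by decide) rfl) ?_
  refine run_non (hout 18 (by decide) (by simp [inDr])) (by decide) ?_
  rfl

theorem blk_id {O q : ℕ} : q / O * O + q % O = q := by
  rw [Nat.mul_comm]; exact Nat.div_add_mod q O

theorem run_mid {var : ℕ → ℕ} {sgn : ℕ → Bool} {τ : ℕ → Bool} (hvar : ∀ o < 3 * m, var o < n)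
    (hτ : ∀ j < m, ∃ r < 3, τ (var (3 * j + r)) = sgn (3 * j + r)) {q : ℕ} (hq : q < PP m n) :
    ∃ c', Run (DD m n (tru m n var sgn τ)) 0 (mid m n var sgn q) c' := by
  obtain ⟨v, o, hv, ho, rfl⟩ := blk_cases hq
  set T := tru m n var sgn τ with hT
  have hq' : v * (3 * m) + (o + 1) % (3 * m) < PP m n := blk_lt (Nat.mod_lt _ (by omega)) hv
  have hqn : n * (3 * m) + o < PP m n := blk_lt ho (by omega)
  have hTn : T (n * (3 * m) + o) = decide (τ (var o) = sgn o) := by
    rw [hT, tru, blk_div ho, blk_mod ho, if_neg (by omega)]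
  have h1 : vx (v * (3 * m) + o) 1 ∈ DD m n T := (mem_DD hq (by decide)).2 rfl
  have h4 : vx (v * (3 * m) + o) 4 ∈ DD m n T := (mem_DD hq (by decide)).2 rfl
  have h2 : vx (v * (3 * m) + o) 2 ∉ DD m n T := fun h => by
    have := (mem_DD hq (by decide)).1 h
    simp [inDr] at this
  have h5 : vx (v * (3 * m) + o) 5 ∉ DD m n T := fun h => by
    have := (mem_DD hq (by decide)).1 h
    simp [inDr] at this
  have hb : vx (v * (3 * m) + o) 20 ∈ DD m n T ↔ T (v * (3 * m) + o) = false := by
    rw [mem_DD hq (by decide)]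
    simp [inDr]
  have ha' : vx (v * (3 * m) + (o + 1) % (3 * m)) 19 ∈ DD m n T ↔
      T (v * (3 * m) + (o + 1) % (3 * m)) = true := by
    rw [mem_DD hq' (by decide)]
    simp [inDr]
  have hd : vx (n * (3 * m) + o) 20 ∈ DD m n T ↔ T (n * (3 * m) + o) = false := by
    rw [mem_DD hqn (by decide)]
    simp [inDr]
  unfold mid
  rw [blk_div ho, blk_mod ho, nx_blk ho]
  by_cases hvn : v < n
  · have hT1 : T (v * (3 * m) + o) = τ v := by
      rw [hT, tru, blk_div ho, if_pos hvn]
    have hT2 : T (v * (3 * m) + (o + 1) % (3 * m)) = τ v := by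
      rw [hT, tru, blk_div (Nat.mod_lt _ (by omega)), if_pos hvn]
    rw [if_pos hvn]
    rw [hT1] at hb
    rw [hT2] at ha'
    rw [hTn] at hd
    split_ifs with e1 e2
    · rw [e1, e2] at hd
      refine ⟨0, ?_⟩
      cases hτv : τ v <;> rw [hτv] at hb ha' hd <;> simp at hb ha' hd <;>
        simp [Run, h1, h4, h2, h5, hb, ha', hd]
    · have e3 : sgn o = false := by simpa using e2
      rw [e1, e3] at hd
      refine ⟨0, ?_⟩
      cases hτv : τ v <;> rw [hτv] at hb ha' hd <;> simp at hb ha' hd <;>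
        simp [Run, h1, h4, h2, h5, hb, ha', hd]
    · refine ⟨0, ?_⟩
      cases hτv : τ v <;> rw [hτv] at hb ha' <;> simp at hb ha' <;>
        simp [Run, h1, h4, h2, h5, hb, ha']
  · have hvn' : v = n := by omega
    subst hvn'
    rw [if_neg hvn]
    split_ifs with e1
    · refine ⟨2, ?_⟩
      have hc : ∀ i < 3, vx (v * (3 * m) + o + i) 19 ∈ DD m v T ↔
          τ (var (o + i)) = sgn (o + i) := by
        intro i hi
        have hoi : o + i < 3 * m := by omega
        rw [Nat.add_assoc, mem_DD (blk_lt hoi hv) (by decide), hT, tru, blk_div hoi, blk_mod hoi,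
          if_neg hvn]
        simp [inDr]
      have h0 := hc 0 (by omega)
      have h1' := hc 1 (by omega)
      have h2' := hc 2 (by omega)
      simp only [Nat.add_zero] at h0
      obtain ⟨r, hr, hrs⟩ := hτ (o / 3) (by omega)
      have ho3 : 3 * (o / 3) = o := by omega
      rw [ho3] at hrs
      by_cases c0 : τ (var o) = sgn o <;> by_cases c1 : τ (var (o + 1)) = sgn (o + 1) <;>
        by_cases c2 : τ (var (o + 2)) = sgn (o + 2) <;>
        simp only [c0, c1, c2, iff_true, iff_false] at h0 h1' h2' <;>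
        first
        | (exfalso
           have : r = 0 ∨ r = 1 ∨ r = 2 := by omega
           rcases this with rfl | rfl | rfl
           · exact c0 hrs
           · exact c1 hrs
           · exact c2 hrs)
        | simp [Run, h1, h4, h2, h5, h0, h1', h2']
    · refine ⟨2, ?_⟩
      simp [Run, h4, h2, h5]

theorem run_F1 {var : ℕ → ℕ} {sgn : ℕ → Bool} {τ : ℕ → Bool} (hvar : ∀ o < 3 * m, var o < n)
    (hτ : ∀ j < m, ∃ r < 3, τ (var (3 * j + r)) = sgn (3 * j + r)) :
    ∃ c' ≤ 1, Run (DD m n (tru m n var sgn τ)) 1 (F1 m n var sgn) c' := by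
  unfold F1
  refine run_flatMap _ ?_ 1 le_rfl
  intro q hq c hc
  rw [List.mem_range] at hq
  obtain ⟨c', hc'⟩ := run_mid hvar hτ hq
  refine ⟨1, le_rfl, ?_⟩
  unfold cell1
  have h1 : vx q 1 ∈ DD m n (tru m n var sgn τ) := (mem_DD hq (by decide)).2 rfl
  have h3 : vx q 3 ∉ DD m n (tru m n var sgn τ) := fun h => by
    have := (mem_DD hq (by decide)).1 h
    simp [inDr] at this
  exact run_non h3 hc (run_in h1 (hc'.append (run_tail1 hq c')))

theorem run_F2 : ∃ c' ≤ 1, Run (DD m n T) 1 (F2 m n) c' := by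
  unfold F2
  obtain ⟨c1, hc1, h1⟩ := run_flatMap (D := DD m n T) (f := cellC) (K := 1)
    (List.range (PP m n)) (by
      intro q hq c hc
      rw [List.mem_range] at hq
      have hin : ∀ r, r < 21 → inDr (T q) r = true → vx q r ∈ DD m n T := fun r hr h =>
        (mem_DD hq hr).2 h
      have hout : ∀ r, r < 21 → ¬ inDr (T q) r = true → vx q r ∉ DD m n T := fun r hr h h' =>
        h ((mem_DD hq hr).1 h')
      refine ⟨1, le_rfl, ?_⟩
      refine run_non (hout 0 (by decide) (by simp [inDr])) hc ?_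
      refine run_in (hin 1 (by decide) rfl) ?_
      refine run_non (hout 2 (by decide) (by simp [inDr])) (by decide) ?_
      refine run_non (hout 3 (by decide) (by simp [inDr])) (by decide) ?_
      refine run_in (hin 4 (by decide) rfl) ?_
      refine run_non (hout 5 (by decide) (by simp [inDr])) (by decide) ?_
      rfl) 1 le_rfl
  obtain ⟨c2, hc2, h2⟩ := run_flatMap (D := DD m n T) (f := cell2) (K := 1)
    (List.range (PP m n)) (by
      intro q hq c hc
      rw [List.mem_range] at hq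
      have hin : ∀ r, r < 21 → inDr (T q) r = true → vx q r ∈ DD m n T := fun r hr h =>
        (mem_DD hq hr).2 h
      have hout : ∀ r, r < 21 → ¬ inDr (T q) r = true → vx q r ∉ DD m n T := fun r hr h h' =>
        h ((mem_DD hq hr).1 h')
      refine ⟨0, by omega, ?_⟩
      refine run_non (hout 6 (by decide) (by simp [inDr])) hc ?_
      refine run_in (hin 9 (by decide) rfl) ?_
      refine run_non (hout 10 (by decide) (by simp [inDr])) (by decide) ?_
      refine run_non (hout 8 (by decide) (by simp [inDr])) (by decide) ?_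
      refine run_in (hin 12 (by decide) rfl) ?_
      refine run_non (hout 16 (by decide) (by simp [inDr])) (by decide) ?_
      have hrest : ∀ c, Run (DD m n T) c [vx q 7, vx q 11, vx q 14, vx q 15, vx q 13, vx q 17]
          0 := by
        intro c
        refine run_in (hin 7 (by decide) rfl) ?_
        refine run_non (hout 11 (by decide) (by simp [inDr])) (by decide) ?_
        refine run_in (hin 14 (by decide) rfl) ?_
        refine run_non (hout 15 (by decide) (by simp [inDr])) (by decide) ?_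
        refine run_non (hout 13 (by decide) (by simp [inDr])) (by decide) ?_
        refine run_in (hin 17 (by decide) rfl) ?_
        rfl
      have h18 := hout 18 (by decide) (by simp [inDr])
      cases hTq : T q with
      | true =>
        have ha : vx q 19 ∈ DD m n T := hin 19 (by decide) (by simp [inDr, hTq])
        have hb : vx q 20 ∉ DD m n T := hout 20 (by decide) (by simp [inDr, hTq])
        exact run_in ha (run_non hb (by decide) (run_non h18 (by decide) (hrest _)))
      | false =>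
        have ha : vx q 19 ∉ DD m n T := hout 19 (by decide) (by simp [inDr, hTq])
        have hb : vx q 20 ∈ DD m n T := hin 20 (by decide) (by simp [inDr, hTq])
        exact run_non ha (by decide) (run_in hb (run_non h18 (by decide) (hrest _)))) c1 hc1
  exact ⟨c2, hc2, h1.append h2⟩

theorem hub_mem {i : ℕ} (hi : i < 7 * PP m n) : hub i ∈ DD m n T := by
  have h7 : i % 7 < 7 := Nat.mod_lt _ (by decide)
  unfold hub
  have hq : i / 7 < PP m n := by omega
  generalize i % 7 = j at *
  interval_cases j <;> exact (mem_DD hq (by decide)).2 rfl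

theorem run_FT (t : ℕ) : ∃ c' ≤ 1, Run (DD m n T) 1 (FT m n t) c' := by
  unfold FT
  refine run_flatMap _ ?_ 1 le_rfl
  intro i hi c hc
  rw [List.mem_range] at hi
  unfold cellT
  by_cases h : uu ((i + 30 * t) % (7 * PP m n)) ∈ DD m n T
  · exact ⟨0, by omega, run_out hc (fun _ => run_in (hub_mem hi) (run_in h rfl))
      (fun _ => run_in (hub_mem hi) (run_in h rfl))⟩
  · exact ⟨1, by omega, run_out hc (fun _ => run_in (hub_mem hi) (run_non h (by omega) rfl))
      (fun _ => run_in (hub_mem hi) (run_non h (by omega) rfl))⟩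

end Complete

/-- The reduction is correct. -/
theorem gd_iff {k m n : ℕ} {var : ℕ → ℕ} {sgn : ℕ → Bool} (hk : 2 ≤ k)
    (hvar : ∀ o < 3 * m, var o < n) (hN : 60 * k + 60 < 7 * PP m n) :
    GD k (21 * PP m n, paths k m n var sgn, 8 * PP m n) ↔ SatP m var sgn := by
  unfold GD
  simp only
  rw [gdn_le_iff]
  constructor
  · rintro ⟨-, -, -, -, D, hD, hc, hdom⟩
    exact sound hvar (hdom _ (by simp [paths])) (hdom _ (by simp [paths])) hD hc
  · rintro ⟨τ, hτ⟩
    have hperm : ∀ l ∈ paths k m n var sgn, l.Perm (List.range (21 * PP m n)) := by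
      intro l hl
      unfold paths at hl
      rw [List.mem_cons, List.mem_cons, List.mem_map] at hl
      rcases hl with rfl | rfl | ⟨t, ht, rfl⟩
      · exact F1_perm hvar
      · exact F2_perm m n
      · rw [List.mem_range] at ht
        exact FT_perm m n _ (by omega)
    refine ⟨by omega, ?_, hperm, paths_disjoint hvar hN, DD m n (tru m n var sgn τ),
      Finset.filter_subset _ _, (card_DD _ _ _).le, ?_⟩
    · simp [paths]; omega
    · intro l hl
      refine dominates_of_run (hperm l hl) ?_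
      unfold paths at hl
      rw [List.mem_cons, List.mem_cons, List.mem_map] at hl
      rcases hl with rfl | rfl | ⟨t, ht, rfl⟩
      · exact run_F1 hvar hτ
      · exact run_F2
      · exact run_FT _

end Pool.Agent.H641R2.GlobDom
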