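import Pool.Agent.H641R2.GD.Logic
import Pool.Agent.NPC.Sat2

/-!
# Global domination of path factors: the reduction from 3SAT is computable in polynomial time
-/

namespace Pool.Agent.H641R2.GlobDom

open Pool.Agent.NPC

section PolyFacts

variable {α : Type} [TEnc α]

theorem poly_vx {f g : α → ℕ} (hf : Poly f) (hg : Poly g) : Poly (fun a => vx (f a) (g a)) :=
  Poly.add (Poly.mul (NPC.Poly.const 21) hf) hg

theorem poly_vxc {f : α → ℕ} (hf : Poly f) (r : ℕ) : Poly (fun a => vx (f a) r) :=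
  poly_vx hf (NPC.Poly.const r)

theorem poly_nx {O q : α → ℕ} (hO : Poly O) (hq : Poly q) : Poly (fun a => nx (O a) (q a)) :=
  Poly.add (Poly.mul (Poly.div hq hO) hO)
    (Poly.mod (Poly.add (Poly.mod hq hO) (NPC.Poly.const 1)) hO)

/-- The variable of the literal number `o` of a list of literals. -/
def varL (L : List (Bool × ℕ)) (o : ℕ) : ℕ := (L.getD o (false, 0)).2

/-- The sign of the literal number `o` of a list of literals. -/
def sgnL (L : List (Bool × ℕ)) (o : ℕ) : Bool := (L.getD o (false, 0)).1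

theorem poly_varL {L : α → List (Bool × ℕ)} {o : α → ℕ} (hL : Poly L) (ho : Poly o) :
    Poly (fun a => varL (L a) (o a)) := Poly.snd (Poly.getD hL ho (NPC.Poly.const _))

theorem poly_sgnL {L : α → List (Bool × ℕ)} {o : α → ℕ} (hL : Poly L) (ho : Poly o) :
    Poly (fun a => sgnL (L a) (o a)) := Poly.fst (Poly.getD hL ho (NPC.Poly.const _))

theorem poly_nil {β : Type} [TEnc β] : Poly (fun _ : α => ([] : List β)) := NPC.Poly.const _

theorem poly_mid {m n q : α → ℕ} {L : α → List (Bool × ℕ)} (hm : Poly m) (hn : Poly n)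
    (hq : Poly q) (hL : Poly L) :
    Poly (fun a => mid (m a) (n a) (varL (L a)) (sgnL (L a)) (q a)) := by
  have hO : Poly (fun a => 3 * m a) := Poly.mul (NPC.Poly.const 3) hm
  have ho : Poly (fun a => q a % (3 * m a)) := Poly.mod hq hO
  have hv : Poly (fun a => q a / (3 * m a)) := Poly.div hq hO
  have hb : Poly (fun a => vx (q a) 20) := poly_vxc hq 20
  have ha : Poly (fun a => vx (nx (3 * m a) (q a)) 19) := poly_vxc (poly_nx hO hq) 19
  have hd : Poly (fun a => vx (n a * (3 * m a) + q a % (3 * m a)) 20) :=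
    poly_vxc (Poly.add (Poly.mul hn hO) ho) 20
  unfold mid
  refine Poly.ite (Poly.decide_lt hv hn) ?_ ?_
  · refine Poly.cons (poly_vxc hq 5) (Poly.append ?_
      (Poly.cons (poly_vxc hq 2) (Poly.cons (poly_vxc hq 4) poly_nil)))
    refine Poly.ite (Poly.decide_eq (poly_varL hL ho) hv) ?_ ?_
    · refine Poly.ite (Poly.decide_bool (poly_sgnL hL ho)) ?_ ?_
      · exact Poly.cons hb (Poly.cons ha (Poly.cons hd poly_nil))
      · exact Poly.cons hd (Poly.cons hb (Poly.cons ha poly_nil))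
    · exact Poly.cons hb (Poly.cons ha poly_nil)
  · refine Poly.append ?_ (Poly.cons (poly_vxc hq 4) (Poly.cons (poly_vxc hq 2)
      (Poly.cons (poly_vxc hq 5) poly_nil)))
    refine Poly.ite (Poly.decide_eq (Poly.mod ho (NPC.Poly.const 3)) (NPC.Poly.const 0)) ?_ poly_nil
    exact Poly.cons (poly_vxc hq 19) (Poly.cons (poly_vxc (Poly.add hq (NPC.Poly.const 1)) 19)
      (Poly.cons (poly_vxc (Poly.add hq (NPC.Poly.const 2)) 19) poly_nil))

theorem poly_cell1 {m n q : α → ℕ} {L : α → List (Bool × ℕ)} (hm : Poly m) (hn : Poly n)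
    (hq : Poly q) (hL : Poly L) :
    Poly (fun a => cell1 (m a) (n a) (varL (L a)) (sgnL (L a)) (q a)) := by
  unfold cell1
  refine Poly.cons (poly_vxc hq _) (Poly.cons (poly_vxc hq _)
    (Poly.append (poly_mid hm hn hq hL) ?_))
  repeat refine Poly.cons (poly_vxc hq _) ?_
  exact poly_nil

theorem poly_cellC {q : α → ℕ} (hq : Poly q) : Poly (fun a => cellC (q a)) := by
  unfold cellC
  repeat refine Poly.cons (poly_vxc hq _) ?_
  exact poly_nil

theorem poly_cell2 {q : α → ℕ} (hq : Poly q) : Poly (fun a => cell2 (q a)) := by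
  unfold cell2
  repeat refine Poly.cons (poly_vxc hq _) ?_
  exact poly_nil

theorem upoly_PP {m n : α → ℕ} (hm : UPoly m) (hn : UPoly n) :
    UPoly (fun a => PP (m a) (n a)) :=
  UPoly.mul (UPoly.mul (UPoly.const 3) hm) (UPoly.add hn (UPoly.const 1))

theorem poly_F1 {m n : α → ℕ} {L : α → List (Bool × ℕ)} (hm : UPoly m) (hn : UPoly n)
    (hL : Poly L) : Poly (fun a => F1 (m a) (n a) (varL (L a)) (sgnL (L a))) := by
  unfold F1
  refine Poly.flatMap (F := fun a q => cell1 (m a) (n a) (varL (L a)) (sgnL (L a)) q)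
    (upoly_PP hm hn).range ?_
  exact poly_cell1 (hm.toPoly.comp (Poly.fst Poly.id)) (hn.toPoly.comp (Poly.fst Poly.id))
    (Poly.snd Poly.id) (hL.comp (Poly.fst Poly.id))

theorem poly_F2 {m n : α → ℕ} (hm : UPoly m) (hn : UPoly n) :
    Poly (fun a => F2 (m a) (n a)) := by
  unfold F2
  exact Poly.append
    (Poly.flatMap (F := fun _ q => cellC q) (upoly_PP hm hn).range (poly_cellC (Poly.snd Poly.id)))
    (Poly.flatMap (F := fun _ q => cell2 q) (upoly_PP hm hn).range (poly_cell2 (Poly.snd Poly.id)))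

theorem poly_hub {i : α → ℕ} (hi : Poly i) : Poly (fun a => hub (i a)) :=
  poly_vx (Poly.div hi (NPC.Poly.const 7)) (Poly.getD (NPC.Poly.const _) (Poly.mod hi (NPC.Poly.const 7))
    (NPC.Poly.const 0))

theorem poly_uu {i : α → ℕ} (hi : Poly i) : Poly (fun a => uu (i a)) :=
  poly_vx (Poly.div hi (NPC.Poly.const 7)) (Poly.getD (NPC.Poly.const _) (Poly.mod hi (NPC.Poly.const 7))
    (NPC.Poly.const 0))

theorem poly_ww {i : α → ℕ} (hi : Poly i) : Poly (fun a => ww (i a)) :=
  poly_vx (Poly.div hi (NPC.Poly.const 7)) (Poly.getD (NPC.Poly.const _) (Poly.mod hi (NPC.Poly.const 7))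
    (NPC.Poly.const 0))

theorem poly_cellT {N t i : α → ℕ} (hN : Poly N) (ht : Poly t) (hi : Poly i) :
    Poly (fun a => cellT (N a) (t a) (i a)) := by
  unfold cellT
  exact Poly.cons (poly_ww (Poly.mod (Poly.add hi (Poly.mul (NPC.Poly.const 60) ht)) hN))
    (Poly.cons (poly_hub hi)
    (Poly.cons (poly_uu (Poly.mod (Poly.add hi (Poly.mul (NPC.Poly.const 30) ht)) hN)) poly_nil))

theorem poly_FT {m n t : α → ℕ} (hm : UPoly m) (hn : UPoly n) (ht : Poly t) :
    Poly (fun a => FT (m a) (n a) (t a)) := by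
  have hN : UPoly (fun a => 7 * PP (m a) (n a)) := UPoly.mul (UPoly.const 7) (upoly_PP hm hn)
  unfold FT
  exact Poly.flatMap (F := fun a i => cellT (7 * PP (m a) (n a)) (t a) i) hN.range
    (poly_cellT (hN.toPoly.comp (Poly.fst Poly.id)) (ht.comp (Poly.fst Poly.id))
      (Poly.snd Poly.id))

end PolyFacts

/-- The list of literals of a 3-CNF. -/
def lits (φ : List (Lit ℕ × Lit ℕ × Lit ℕ)) : List (Bool × ℕ) :=
  φ.flatMap (fun c => [c.1, c.2.1, c.2.2])

/-- The number of chains used in the reduction. -/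
def nn (k : ℕ) (φ : List (Lit ℕ × Lit ℕ × Lit ℕ)) : ℕ := 3 * φ.length + (3 * k + 10)

/-- The reduction from 3SAT to `GD_k`. -/
def red (k : ℕ) (φ : List (Lit ℕ × Lit ℕ × Lit ℕ)) : ℕ × List (List ℕ) × ℕ :=
  (21 * PP φ.length (nn k φ), paths k φ.length (nn k φ) (varL (lits φ)) (sgnL (lits φ)),
    8 * PP φ.length (nn k φ))

theorem red_poly (k : ℕ) : Poly (red k) := by
  have hm : UPoly (fun φ : List (Lit ℕ × Lit ℕ × Lit ℕ) => φ.length) := UPoly.length Poly.id
  have hn : UPoly (fun φ => nn k φ) :=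
    UPoly.add (UPoly.mul (UPoly.const 3) hm) (UPoly.const _)
  have hP : UPoly (fun φ : List (Lit ℕ × Lit ℕ × Lit ℕ) => PP φ.length (nn k φ)) :=
    upoly_PP hm hn
  have hL : Poly lits := Poly.flatMap (F := fun _ (c : Lit ℕ × Lit ℕ × Lit ℕ) =>
      [c.1, c.2.1, c.2.2]) Poly.id
    (Poly.cons (Poly.fst (Poly.snd Poly.id)) (Poly.cons (Poly.fst (Poly.snd (Poly.snd Poly.id)))
      (Poly.cons (Poly.snd (Poly.snd (Poly.snd Poly.id))) poly_nil)))
  unfold red paths
  refine Poly.pair (Poly.mul (NPC.Poly.const 21) hP.toPoly) (Poly.pair ?_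
    (Poly.mul (NPC.Poly.const 8) hP.toPoly))
  refine Poly.cons (poly_F1 hm hn hL) (Poly.cons (poly_F2 hm hn) ?_)
  refine NPC.Poly.map (F := fun φ t => FT φ.length (nn k φ) (t + 1)) (NPC.Poly.const _) ?_
  exact poly_FT (UPoly.comp hm (Poly.fst Poly.id)) (UPoly.comp hn (Poly.fst Poly.id))
    (Poly.add (Poly.snd Poly.id) (NPC.Poly.const 1))

theorem lits_getD (φ : List (Lit ℕ × Lit ℕ × Lit ℕ)) (j : ℕ) (hj : j < φ.length) :
    (lits φ).getD (3 * j) (false, 0) = φ[j].1 ∧ (lits φ).getD (3 * j + 1) (false, 0) = φ[j].2.1 ∧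
      (lits φ).getD (3 * j + 2) (false, 0) = φ[j].2.2 := by
  induction φ generalizing j with
  | nil => simp at hj
  | cons c φ ih =>
    cases j with
    | zero => simp [lits]
    | succ j =>
      have := ih j (by simpa using hj)
      have e : lits (c :: φ) = c.1 :: c.2.1 :: c.2.2 :: lits φ := by simp [lits]
      rw [e]
      have e0 : 3 * (j + 1) = 3 * j + 1 + 1 + 1 := by ring
      rw [e0]
      simpa using this

theorem satP_iff (φ : List (Lit ℕ × Lit ℕ × Lit ℕ)) :
    SatP φ.length (varL (lits φ)) (sgnL (lits φ)) ↔ SAT3 φ := by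
  unfold SatP SAT3 Sat3V
  refine exists_congr fun τ => ?_
  constructor
  · intro h c hc
    obtain ⟨j, hj, rfl⟩ := List.getElem_of_mem hc
    obtain ⟨h0, h1, h2⟩ := lits_getD φ j hj
    obtain ⟨r, hr, hrs⟩ := h j hj
    unfold varL sgnL at hrs
    have : r = 0 ∨ r = 1 ∨ r = 2 := by omega
    rcases this with rfl | rfl | rfl
    · rw [Nat.add_zero, h0] at hrs; exact Or.inl hrs
    · rw [h1] at hrs; exact Or.inr (Or.inl hrs)
    · rw [h2] at hrs; exact Or.inr (Or.inr hrs)
  · intro h j hj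
    obtain ⟨h0, h1, h2⟩ := lits_getD φ j hj
    unfold varL sgnL
    rcases h _ (List.getElem_mem hj) with h | h | h
    · exact ⟨0, by omega, by rw [Nat.add_zero, h0]; exact h⟩
    · exact ⟨1, by omega, by rw [h1]; exact h⟩
    · exact ⟨2, by omega, by rw [h2]; exact h⟩

theorem varL_lt {φ : List (Lit ℕ × Lit ℕ × Lit ℕ)} (hφ : Bounded3 φ) {o : ℕ}
    (ho : o < 3 * φ.length) : varL (lits φ) o < 3 * φ.length := by
  have hj : o / 3 < φ.length := by omega
  obtain ⟨h0, h1, h2⟩ := lits_getD φ (o / 3) hj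
  obtain ⟨g0, g1, g2⟩ := hφ _ (List.getElem_mem hj)
  unfold varL
  have : o = 3 * (o / 3) ∨ o = 3 * (o / 3) + 1 ∨ o = 3 * (o / 3) + 2 := by omega
  rcases this with h | h | h
  · rw [h, h0]; exact g0
  · rw [h, h1]; exact g1
  · rw [h, h2]; exact g2

theorem hardI_GD (k : ℕ) (hk : 2 ≤ k) : HardI (GD k) := by
  have := HardPr.trans (Pr' := fun _ => True) hardPr_SAT3b (red_poly k) (fun _ _ => trivial)
    (Q := GD k) (by
      rintro φ ⟨-, hb, hne⟩
      have hlen : 0 < φ.length := List.length_pos_iff.2 hne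
      unfold red
      rw [gd_iff hk]
      · exact (satP_iff φ).symm
      · intro o ho
        have := varL_lt hb ho
        unfold nn
        omega
      · unfold PP nn
        have h1 : 3 * 1 * (3 * 1 + (3 * k + 10) + 1) ≤
            3 * φ.length * (3 * φ.length + (3 * k + 10) + 1) := by
          apply Nat.mul_le_mul <;> omega
        omega)
  exact this.toHardI

theorem npHard_GD (k : ℕ) (hk : 2 ≤ k) : NPHardP (GD k) := (hardI_GD k hk).toNPHardP

end Pool.Agent.H641R2.GlobDom
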